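import Pool.Agent.Lib.MP_601de6_co.Poly

namespace Pool.Agent.Lib.MP_601de6_co

open Finset Polynomial

/-- coefficientwise order of polynomials -/
def Le (p q : ℝ[X]) : Prop := ∀ i, p.coeff i ≤ q.coeff i

lemma Le.xmul {p : ℝ[X]} (h : Le 0 p) : Le 0 (X * p) := by
  intro i
  rcases i with _ | i
  · simp
  · rw [coeff_X_mul]
    simpa using h i

section Real

variable {a b β : ℝ} {d : ℕ}

noncomputable def ee (a b : ℝ) (s : ℕ) : ℝ := (a ^ s + b ^ s) / 2
noncomputable def oo (a b : ℝ) (s : ℕ) : ℝ := (a ^ s - b ^ s) / 2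

/-- the numerical conditions -/
structure Num (a b β : ℝ) (d : ℕ) : Prop where
  hβ : 0 < β
  ha : 1 + a ^ d / β ≤ a
  hb : 1 - b ^ d / β = b
  hb0 : 0 ≤ b
  hab : a ^ (d + 1) - b ^ (d + 1) ≤ 2
  ha0 : 1 ≤ a

lemma Num.hb1 (h : Num a b β d) : b ≤ 1 := by
  have := div_nonneg (pow_nonneg h.hb0 d) h.hβ.le
  linarith [h.hb]

lemma Num.step_o (h : Num a b β d) (s : ℕ) :
    oo a b s + ee a b (s + d) / β ≤ oo a b (s + 1) := by
  unfold oo ee
  have h1 : a ^ s * (1 + a ^ d / β) ≤ a ^ s * a :=
    mul_le_mul_of_nonneg_left h.ha (pow_nonneg (by linarith [h.ha0]) s)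
  have h2 : b ^ s * (1 - b ^ d / β) = b ^ s * b := by rw [h.hb]
  have e1 : (a ^ s - b ^ s) / 2 + (a ^ (s + d) + b ^ (s + d)) / 2 / β
      = (a ^ s * (1 + a ^ d / β) - b ^ s * (1 - b ^ d / β)) / 2 := by
    rw [pow_add, pow_add]; ring
  rw [e1, pow_succ, pow_succ, h2]
  linarith

lemma Num.step_e (h : Num a b β d) (s : ℕ) :
    ee a b s + oo a b (s + d) / β ≤ ee a b (s + 1) := by
  unfold oo ee
  have h1 : a ^ s * (1 + a ^ d / β) ≤ a ^ s * a :=
    mul_le_mul_of_nonneg_left h.ha (pow_nonneg (by linarith [h.ha0]) s)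
  have h2 : b ^ s * (1 - b ^ d / β) = b ^ s * b := by rw [h.hb]
  have e1 : (a ^ s + b ^ s) / 2 + (a ^ (s + d) - b ^ (s + d)) / 2 / β
      = (a ^ s * (1 + a ^ d / β) + b ^ s * (1 - b ^ d / β)) / 2 := by
    rw [pow_add, pow_add]; ring
  rw [e1, pow_succ, pow_succ, h2]
  linarith

lemma Num.oo_nonneg (h : Num a b β d) (s : ℕ) : 0 ≤ oo a b s := by
  unfold oo
  have h1 : b ^ s ≤ a ^ s := pow_le_pow_left₀ h.hb0 (by linarith [h.hb1, h.ha0]) s
  linarith

lemma Num.ee_nonneg (h : Num a b β d) (s : ℕ) : 0 ≤ ee a b s := by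
  unfold ee
  have h1 := pow_nonneg h.hb0 s
  have h2 : (0:ℝ) ≤ a ^ s := pow_nonneg (by linarith [h.ha0]) s
  linarith

lemma Num.mono_o (h : Num a b β d) : Monotone (oo a b) :=
  monotone_nat_of_le_succ fun s => by
    have := h.step_o s
    have h2 := div_nonneg (h.ee_nonneg (s + d)) h.hβ.le
    linarith

lemma Num.mono_e (h : Num a b β d) : Monotone (ee a b) :=
  monotone_nat_of_le_succ fun s => by
    have := h.step_e s
    have h2 := div_nonneg (h.oo_nonneg (s + d)) h.hβ.le
    linarith

end Real

section Main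

variable {V : Type*} [DecidableEq V] [Fintype V] {G : SimpleGraph V} [DecidableRel G.Adj]
variable {k : ℕ}

/-- degree plus number of forbidden colours at most `d + 1` -/
def Dom (G : SimpleGraph V) [DecidableRel G.Adj] (d : ℕ) (U : Finset V)
    (F : V → Finset (Fin k)) : Prop :=
  ∀ v ∈ U, (G.neighborFinset v ∩ U).card + (F v).card ≤ d + 1

lemma card_erase_le' (U : Finset V) (u v : V) :
    (G.neighborFinset v ∩ U.erase u).card ≤ (G.neighborFinset v ∩ U).card :=
  card_le_card (inter_subset_inter_left (erase_subset _ _))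

lemma card_erase_nbr {U : Finset V} {u v : V} (hu : u ∈ U) (h : v ∈ G.neighborFinset u) :
    (G.neighborFinset v ∩ U.erase u).card + 1 ≤ (G.neighborFinset v ∩ U).card := by
  have h1 : u ∈ G.neighborFinset v ∩ U := by
    rw [SimpleGraph.mem_neighborFinset] at h
    exact mem_inter.mpr ⟨(SimpleGraph.mem_neighborFinset _ _ _).mpr h.symm, hu⟩
  have h2 : G.neighborFinset v ∩ U.erase u = (G.neighborFinset v ∩ U).erase u := by
    ext x; simp only [mem_inter, mem_erase]; tauto
  rw [h2, card_erase_of_mem h1]
  have : 0 < (G.neighborFinset v ∩ U).card := card_pos.mpr ⟨u, h1⟩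
  omega

lemma inter_erase_self (U : Finset V) (u : V) :
    G.neighborFinset u ∩ U.erase u = G.neighborFinset u ∩ U := by
  ext x
  simp only [mem_inter, mem_erase, SimpleGraph.mem_neighborFinset]
  constructor
  · tauto
  · rintro ⟨h1, h2⟩
    exact ⟨h1, fun h => by subst h; exact G.loopless.irrefl _ h1, h2⟩

lemma Dom.erase {d : ℕ} {U : Finset V} {F : V → Finset (Fin k)} (h : Dom G d U F) (u : V) :
    Dom G d (U.erase u) F := by
  intro v hv
  have := h v (mem_of_mem_erase hv)
  have := card_erase_le' (G := G) U u v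
  omega

lemma Dom.erase_add {d : ℕ} {U : Finset V} {F : V → Finset (Fin k)} (h : Dom G d U F)
    {u : V} (hu : u ∈ U) (a : Fin k) :
    Dom G d (U.erase u) (addF F a (G.neighborFinset u)) := by
  intro v hv
  have h1 := h v (mem_of_mem_erase hv)
  unfold addF
  split_ifs with hN
  · have h2 := card_erase_nbr (G := G) hu hN
    have h3 := card_insert_le a (F v)
    omega
  · have := card_erase_le' (G := G) U u v
    omega

/-- forbidding more decreases the counting polynomial -/
lemma mono_forbid {d : ℕ} {U : Finset V}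
    (ihA : ∀ U' : Finset V, U'.card < U.card → ∀ F : V → Finset (Fin k), Dom G d U' F →
      Le 0 (Yp G U' ∅ F))
    {F : V → Finset (Fin k)} (hD : Dom G d U F) (a : Fin k) (X : Finset V)
    (hX : ∀ w ∈ X, w ∈ U → a ∉ F w → (G.neighborFinset w ∩ U).card + (F w).card ≤ d) :
    Dom G d U (addF F a X) ∧ Le (Yp G U ∅ (addF F a X)) (Yp G U ∅ F) := by
  have hDX : ∀ X : Finset V,
      (∀ w ∈ X, w ∈ U → a ∉ F w → (G.neighborFinset w ∩ U).card + (F w).card ≤ d) →
      Dom G d U (addF F a X) := by
    intro X hX v hv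
    unfold addF
    split_ifs with h
    · by_cases hav : a ∈ F v
      · rw [insert_eq_self.mpr hav]; exact hD v hv
      · have h1 := hX v h hv hav
        have h3 := card_insert_le a (F v)
        omega
    · exact hD v hv
  refine ⟨hDX X hX, ?_⟩
  induction X using Finset.induction_on with
  | empty =>
    rw [Yp_congr (F' := F) (fun v _ => Iff.rfl) (fun v _ => by simp [addF])]
    intro i; exact le_refl _
  | insert w X hwX ih =>
    have hX' : ∀ w ∈ X, w ∈ U → a ∉ F w → (G.neighborFinset w ∩ U).card + (F w).card ≤ d :=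
      fun z hz => hX z (mem_insert_of_mem hz)
    have ih := ih hX'
    by_cases hwU : w ∈ U
    · by_cases haw : a ∈ F w
      · rw [Yp_congr (F' := addF F a X) (fun v _ => Iff.rfl) (fun v _ => by
          unfold addF
          by_cases hv : v = w
          · subst hv; simp [hwX, insert_eq_self.mpr haw]
          · simp [hv])]
        exact ih
      · have hF1 : addF F a X w = F w := by unfold addF; rw [if_neg hwX]
        have ha1 : a ∉ addF F a X w := by rw [hF1]; exact haw
        have hs := Yp_split (G := G) (X := ∅) (F := addF F a X) hwU ha1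
        have hpos := ihA (U.erase w) (card_erase_lt_of_mem hwU) _
          ((hDX X hX').erase_add hwU a)
        have he : Yp G U ∅ (addF (addF F a X) a {w}) = Yp G U ∅ (addF F a (insert w X)) := by
          apply Yp_congr (fun v _ => Iff.rfl)
          intro v _
          unfold addF
          by_cases hv : v = w
          · subst hv; simp [hwX]
          · simp [hv]
        rw [he] at hs
        intro i
        have h1 := ih i
        have h2 := hpos i
        have h3 : (Yp G U ∅ (addF F a X)).coeff i = (Yp G U ∅ (addF F a (insert w X))).coeff i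
          + (Yp G (U.erase w) ∅ (addF (addF F a X) a (G.neighborFinset w))).coeff i := by
          rw [hs, coeff_add]
        rw [coeff_zero] at h2
        linarith
    · rw [Yp_congr (F' := addF F a X) (fun v _ => Iff.rfl) (fun v hv => by
          unfold addF
          have : v ≠ w := by rintro rfl; exact hwU hv
          simp [this])]
      exact ih

/-- union bound -/
lemma union_bound {d : ℕ} {U : Finset V}
    (ihA : ∀ U' : Finset V, U'.card < U.card → ∀ F : V → Finset (Fin k), Dom G d U' F →
      Le 0 (Yp G U' ∅ F))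
    {F : V → Finset (Fin k)} (hD : Dom G d U F) (a : Fin k) (X : Finset V) (hXU : X ⊆ U)
    (hX : ∀ w ∈ X, w ∈ U → a ∉ F w → (G.neighborFinset w ∩ U).card + (F w).card ≤ d) :
    Le (Yp G U ∅ F - ∑ w ∈ X.filter (fun w => a ∉ F w),
      Yp G (U.erase w) ∅ (addF F a (G.neighborFinset w))) (Yp G U ∅ (addF F a X)) := by
  induction X using Finset.induction_on with
  | empty =>
    rw [Yp_congr (F := addF F a ∅) (F' := F) (fun v _ => Iff.rfl) (fun v _ => by simp [addF])]
    intro i; simp
  | insert w X hwX ih =>
    have hX' : ∀ w ∈ X, w ∈ U → a ∉ F w → (G.neighborFinset w ∩ U).card + (F w).card ≤ d :=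
      fun z hz => hX z (mem_insert_of_mem hz)
    have ih := ih (fun z hz => hXU (mem_insert_of_mem hz)) hX'
    have hwU : w ∈ U := hXU (mem_insert_self _ _)
    by_cases haw : a ∈ F w
    · rw [Yp_congr (F := addF F a (insert w X)) (F' := addF F a X) (fun v _ => Iff.rfl)
        (fun v _ => by
          unfold addF
          by_cases hv : v = w
          · subst hv; simp [hwX, insert_eq_self.mpr haw]
          · simp [hv])]
      rw [filter_insert, if_neg (by simpa using haw)]
      exact ih
    · have hF1 : addF F a X w = F w := by unfold addF; rw [if_neg hwX]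
      have ha1 : a ∉ addF F a X w := by rw [hF1]; exact haw
      have hs := Yp_split (G := G) (X := ∅) (F := addF F a X) hwU ha1
      have he : Yp G U ∅ (addF (addF F a X) a {w}) = Yp G U ∅ (addF F a (insert w X)) := by
        apply Yp_congr (fun v _ => Iff.rfl)
        intro v _
        unfold addF
        by_cases hv : v = w
        · subst hv; simp [hwX]
        · simp [hv]
      rw [he] at hs
      have hm : Le (Yp G (U.erase w) ∅ (addF (addF F a (G.neighborFinset w)) a X))
          (Yp G (U.erase w) ∅ (addF F a (G.neighborFinset w))) := by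
        refine (mono_forbid (d := d) (fun U' hU' => ihA U'
          (hU'.trans (card_erase_lt_of_mem hwU))) (hD.erase_add hwU a) a X ?_).2
        intro z hz hzU haz
        have hzN : z ∉ G.neighborFinset w := by
          intro hN
          apply haz
          unfold addF
          rw [if_pos hN]
          exact mem_insert_self _ _
        have hFz : addF F a (G.neighborFinset w) z = F z := by unfold addF; rw [if_neg hzN]
        rw [hFz] at haz ⊢
        have h1 := hX' z hz (mem_of_mem_erase hzU) haz
        have := card_erase_le' (G := G) U w z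
        omega
      have he2 : Yp G (U.erase w) ∅ (addF (addF F a X) a (G.neighborFinset w))
          = Yp G (U.erase w) ∅ (addF (addF F a (G.neighborFinset w)) a X) := by
        apply Yp_congr (fun v _ => Iff.rfl)
        intro v _
        unfold addF
        by_cases h1 : v ∈ X <;> by_cases h2 : v ∈ G.neighborFinset w <;> simp only [h1, h2, if_true, if_false]
      rw [filter_insert, if_pos haw, sum_insert (by simp [hwX])]
      intro i
      have h1 := ih i
      have h2 := hm i
      rw [← he2] at h2
      have h3 : (Yp G U ∅ (addF F a X)).coeff i = (Yp G U ∅ (addF F a (insert w X))).coeff i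
          + (Yp G (U.erase w) ∅ (addF (addF F a X) a (G.neighborFinset w))).coeff i := by
        rw [hs, coeff_add]
      rw [coeff_sub] at h1 ⊢
      rw [coeff_add]
      linarith

/-- the three-part claim -/
def ClC (G : SimpleGraph V) [DecidableRel G.Adj] (a b : ℝ) (d : ℕ) (U : Finset V)
    (F : V → Finset (Fin k)) : Prop :=
  ∀ X : Finset V, (∀ u ∈ X, u ∈ U → (G.neighborFinset u ∩ U).card + (F u).card ≤ d) →
    ∃ P Q : ℝ[X], Yp G U X F = P - Q ∧ Le 0 Q ∧ Le Q (C (oo a b X.card) * Yp G U ∅ F) ∧
      Le (Yp G U ∅ F) P ∧ Le P (C (ee a b X.card) * Yp G U ∅ F)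

lemma Ypos {a b β : ℝ} {d : ℕ} (hN : Num a b β d) {U : Finset V} {F : V → Finset (Fin k)}
    (hD : Dom G d U F) {u : V} (hu : u ∈ U) (hA : Le 0 (Yp G (U.erase u) ∅ F))
    (hC : ClC G a b d (U.erase u) F) :
    Le 0 (Yp G (U.erase u) (G.neighborFinset u) F) := by
  obtain ⟨P, Q, h1, h2, h3, h4, h5⟩ := hC (G.neighborFinset u ∩ U.erase u) (by
    intro w hw hwU
    have := card_erase_nbr (G := G) hu (mem_inter.mp hw).1
    have := hD w (mem_of_mem_erase hwU)
    omega)
  have he : Yp G (U.erase u) (G.neighborFinset u) F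
      = Yp G (U.erase u) (G.neighborFinset u ∩ U.erase u) F := by
    apply Yp_congr
    · intro v hv; simp only [mem_inter, hv, and_true]
    · intro v _; rfl
  have hc : (G.neighborFinset u ∩ U.erase u).card ≤ d + 1 := by
    rw [inter_erase_self]
    have := hD u hu
    omega
  have ho : oo a b (G.neighborFinset u ∩ U.erase u).card ≤ 1 := by
    refine (hN.mono_o hc).trans ?_
    unfold oo
    linarith [hN.hab]
  intro i
  rw [he, h1, coeff_sub, coeff_zero]
  have e3 := h3 i
  have e4 := h4 i
  have h6 := hA i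
  rw [coeff_zero] at h6
  rw [coeff_C_mul] at e3
  nlinarith [mul_le_mul_of_nonneg_right ho h6]

end Main

end Pool.Agent.Lib.MP_601de6_co
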