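import Pool.Agent.Lib.MP_601de6_co.LiftW

namespace Pool.Agent.Lib.MP_601de6_co

open Finset Polynomial

section Clique

variable {V : Type*} [DecidableEq V] [Fintype V] {G : SimpleGraph V} [DecidableRel G.Adj]
variable {C : Type*} [DecidableEq C] [Fintype C]

/-- at most one vertex of a clique has the colour `c` -/
lemma clique_rem {W : Finset V} (A : V → Finset C) (c : C) (S : Finset V) :
    S ⊆ W → (∀ u ∈ S, ∀ u' ∈ S, u ≠ u' → G.Adj u u') →
    cnt G W A = cnt G W (rem A c S)
      + ∑ u ∈ S, if c ∈ A u then cnt G (W.erase u) (rem A c (G.neighborFinset u)) else 0 := by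
  induction S using Finset.induction_on with
  | empty =>
    intro _ _
    rw [sum_empty, add_zero]
    apply cnt_congr
    intro v _
    simp [rem]
  | insert u S hu ih =>
    intro hSW hcl
    have h0 := ih ((subset_insert _ _).trans hSW)
      (fun x hx y hy => hcl x (mem_insert_of_mem hx) y (mem_insert_of_mem hy))
    rw [sum_insert hu]
    by_cases hc : c ∈ A u
    · rw [if_pos hc]
      have hc' : c ∈ rem A c S u := by simp [rem, hu, hc]
      have h1 := cnt_split (G := G) (rem A c S) (hSW (mem_insert_self u S)) hc'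
      have h2 : cnt G W (rem (rem A c S) c {u}) = cnt G W (rem A c (insert u S)) := by
        apply cnt_congr
        intro v _
        unfold rem
        by_cases hvu : v = u
        · subst hvu; simp [hu]
        · simp [hvu]
      have h3 : cnt G (W.erase u) (rem (rem A c S) c (G.neighborFinset u))
          = cnt G (W.erase u) (rem A c (G.neighborFinset u)) := by
        apply cnt_congr
        intro v hv
        unfold rem
        by_cases hvN : v ∈ G.neighborFinset u
        · by_cases hvS : v ∈ S <;> simp [hvN, hvS]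
        · have hvS : v ∉ S := by
            intro h
            apply hvN
            rw [SimpleGraph.mem_neighborFinset]
            exact hcl u (mem_insert_self u S) v (mem_insert_of_mem h) (mem_erase.mp hv).1.symm
          simp [hvN, hvS]
      rw [h2, h3] at h1
      omega
    · rw [if_neg hc, zero_add]
      have h2 : cnt G W (rem A c S) = cnt G W (rem A c (insert u S)) := by
        apply cnt_congr
        intro v _
        unfold rem
        by_cases hvu : v = u
        · subst hvu
          simp [hu, hc]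
        · simp [hvu]
      rw [← h2]
      exact h0

/-- the recursion at a simplicial vertex -/
lemma simplicial {U : Finset V} (A : V → Finset C) {v : V} (hv : v ∈ U)
    (hcl : ∀ u ∈ U, ∀ u' ∈ U, G.Adj v u → G.Adj v u' → u ≠ u' → G.Adj u u') :
    cnt G U A + (G.neighborFinset v ∩ U).card * cnt G (U.erase v) A
      = (A v).card * cnt G (U.erase v) A
        + ∑ u ∈ G.neighborFinset v ∩ U, ∑ c ∈ A u \ A v,
          cnt G ((U.erase v).erase u) (rem A c (G.neighborFinset u)) := by
  set W := U.erase v with hW
  set S := G.neighborFinset v ∩ U with hS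
  have hSW : S ⊆ W := by
    intro u hu
    rw [hS, mem_inter, SimpleGraph.mem_neighborFinset] at hu
    exact mem_erase.mpr ⟨hu.1.ne', hu.2⟩
  have hScl : ∀ u ∈ S, ∀ u' ∈ S, u ≠ u' → G.Adj u u' := by
    intro u hu u' hu' hne
    rw [hS, mem_inter, SimpleGraph.mem_neighborFinset] at hu hu'
    exact hcl u hu.2 u' hu'.2 hu.1 hu'.1 hne
  have h1 : ∀ c ∈ A v, cnt G W (rem A c (G.neighborFinset v))
      + ∑ u ∈ S, (if c ∈ A u then cnt G (W.erase u) (rem A c (G.neighborFinset u)) else 0)
        = cnt G W A := by
    intro c _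
    rw [clique_rem A c S hSW hScl]
    congr 1
    apply cnt_congr
    intro x hx
    unfold rem
    have hiff : x ∈ G.neighborFinset v ↔ x ∈ S := by
      rw [hS, mem_inter]
      exact ⟨fun h => ⟨h, (mem_erase.mp hx).2⟩, fun h => h.1⟩
    simp only [hiff]
  have h2 : cnt G U A + ∑ c ∈ A v, ∑ u ∈ S,
      (if c ∈ A u then cnt G (W.erase u) (rem A c (G.neighborFinset u)) else 0)
        = (A v).card * cnt G W A := by
    rw [cnt_rec A hv, ← sum_add_distrib, sum_congr rfl h1, sum_const, smul_eq_mul]
  have h3 : ∀ u ∈ S, ∑ c ∈ A v,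
      (if c ∈ A u then cnt G (W.erase u) (rem A c (G.neighborFinset u)) else 0)
      + ∑ c ∈ A u \ A v, cnt G (W.erase u) (rem A c (G.neighborFinset u)) = cnt G W A := by
    intro u hu
    rw [cnt_rec A (hSW hu), ← sum_filter]
    have : (A v).filter (fun c => c ∈ A u) = A u ∩ A v := by
      ext c; simp [and_comm]
    rw [this]
    exact sum_inter_add_sum_sdiff (A u) (A v) _
  rw [sum_comm] at h2
  have h4 := sum_congr (rfl : S = S) h3
  rw [sum_add_distrib, sum_const, smul_eq_mul] at h4
  omega

end Clique

section Chd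

variable {V : Type*} [DecidableEq V] [Fintype V] {G : SimpleGraph V} [DecidableRel G.Adj]
variable {k : ℕ}

lemma Yp_simplicial {U : Finset V} (F : V → Finset (Fin k)) {v : V} (hv : v ∈ U)
    (hcl : ∀ u ∈ U, ∀ u' ∈ U, G.Adj v u → G.Adj v u' → u ≠ u' → G.Adj u u') :
    Yp G U ∅ F = (X + C ((k : ℝ) - (F v).card - (G.neighborFinset v ∩ U).card))
        * Yp G (U.erase v) ∅ F
      + ∑ u ∈ G.neighborFinset v ∩ U, ∑ a ∈ F v \ F u,
        Yp G ((U.erase v).erase u) ∅ (addF F a (G.neighborFinset u)) := by
  apply poly_ext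
  intro m hm
  have h1 := simplicial (G := G) (LA m F ∅) hv hcl
  have h2 : ((LA m F ∅ v).card : ℝ) = (k : ℝ) - (F v).card + m := by
    unfold LA
    rw [card_disjSum]
    have h3 : (univ.filter (fun j : Fin m => v ∈ (∅ : Finset V) → (j : ℕ) ≠ 0)) = univ := by
      simp
    rw [h3, card_univ, Fintype.card_fin, card_sdiff_of_subset (subset_univ _), card_univ,
      Fintype.card_fin]
    have h4 : (F v).card ≤ k := by
      have := card_le_univ (F v)
      rwa [Fintype.card_fin] at this
    push_cast [Nat.cast_sub h4]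
    ring
  have h3 : ∀ u ∈ G.neighborFinset v ∩ U, ∑ c ∈ LA m F ∅ u \ LA m F ∅ v,
      cnt G ((U.erase v).erase u) (rem (LA m F ∅) c (G.neighborFinset u))
      = ∑ a ∈ F v \ F u, cY G m ((U.erase v).erase u) ∅ (addF F a (G.neighborFinset u)) := by
    intro u _
    symm
    refine sum_bij (fun a _ => Sum.inl a) ?_ ?_ ?_ ?_
    · intro a ha
      rw [mem_sdiff] at ha ⊢
      unfold LA
      simp [ha.1, ha.2]
    · intro a _ b _ h
      exact Sum.inl_injective h
    · intro c hc
      rw [mem_sdiff] at hc
      unfold LA at hc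
      rcases c with c | c
      · refine ⟨c, ?_, rfl⟩
        simp at hc
        rw [mem_sdiff]
        exact ⟨hc.2, hc.1⟩
      · simp at hc
    · intro a _
      unfold cY
      rw [rem_inl]
  rw [sum_congr rfl h3] at h1
  have h4 : ((cnt G U (LA m F ∅) + (G.neighborFinset v ∩ U).card
      * cnt G (U.erase v) (LA m F ∅) : ℕ) : ℝ)
      = (((LA m F ∅ v).card * cnt G (U.erase v) (LA m F ∅)
        + ∑ u ∈ G.neighborFinset v ∩ U, ∑ a ∈ F v \ F u,
          cY G m ((U.erase v).erase u) ∅ (addF F a (G.neighborFinset u)) : ℕ) : ℝ) := by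
    exact_mod_cast h1
  push_cast at h4
  rw [h2] at h4
  rw [eval_add, eval_mul, eval_add, eval_X, eval_C, eval_finsetSum, Yp_eval hm, Yp_eval hm]
  simp only [eval_finsetSum, Yp_eval hm]
  unfold cY at h4 ⊢
  linarith

/-- nonnegative coefficients and not zero -/
def NN (p : ℝ[X]) : Prop := (∀ i, 0 ≤ p.coeff i) ∧ p ≠ 0

lemma NN.eval_pos {p : ℝ[X]} (h : NN p) {x : ℝ} (hx : 0 < x) : 0 < p.eval x := by
  rw [eval_eq_sum_range]
  refine lt_of_lt_of_le ?_ (single_le_sum (f := fun i => p.coeff i * x ^ i)
    (fun i _ => mul_nonneg (h.1 i) (pow_nonneg hx.le i)) (mem_range.mpr (Nat.lt_succ_self _)))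
  have h1 : p.leadingCoeff ≠ 0 := leadingCoeff_ne_zero.mpr h.2
  exact mul_pos (lt_of_le_of_ne (h.1 _) (Ne.symm h1)) (pow_pos hx _)

lemma NN.mul {p r : ℝ[X]} (hp : NN p) (hr : NN r) : NN (p * r) := by
  refine ⟨fun i => ?_, mul_ne_zero hp.2 hr.2⟩
  rw [coeff_mul]
  exact sum_nonneg fun x _ => mul_nonneg (hp.1 _) (hr.1 _)

lemma NN.add {p r : ℝ[X]} (hp : NN p) (hr : ∀ i, 0 ≤ r.coeff i) : NN (p + r) := by
  refine ⟨fun i => ?_, fun h => ?_⟩
  · rw [coeff_add]; exact add_nonneg (hp.1 i) (hr i)
  · have h1 := hp.eval_pos (x := 1) one_pos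
    have h2 : 0 ≤ r.eval 1 := by
      rw [eval_eq_sum_range]
      exact sum_nonneg fun i _ => by simpa using hr i
    have h3 := congrArg (fun p => p.eval 1) h
    simp only [eval_add, eval_zero] at h3
    linarith

lemma nn_X_add {c : ℝ} (hc : 0 ≤ c) : NN (X + C c) := by
  refine ⟨fun i => ?_, X_add_C_ne_zero c⟩
  rw [coeff_add, coeff_X, coeff_C]
  split_ifs <;> linarith

lemma nn_one : NN (1 : ℝ[X]) := by
  refine ⟨fun i => ?_, one_ne_zero⟩
  rw [coeff_one]
  split_ifs <;> norm_num

lemma coeff_sum_nonneg {ι : Type*} {s : Finset ι} {f : ι → ℝ[X]}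
    (h : ∀ i ∈ s, ∀ n, 0 ≤ (f i).coeff n) (n : ℕ) : 0 ≤ (∑ i ∈ s, f i).coeff n := by
  rw [finsetSum_coeff]
  exact sum_nonneg fun i hi => h i hi n

/-- the counting polynomial in the variable `q - D`, for `k = D + 1` -/
noncomputable def zt (G : SimpleGraph V) [DecidableRel G.Adj] (U : Finset V)
    (F : V → Finset (Fin k)) : ℝ[X] := (Yp G U ∅ F).comp (X + C (-1))

/-- every nonempty subset of `U` induces a graph with a simplicial vertex -/
def Chordal (G : SimpleGraph V) (U : Finset V) : Prop :=
  ∀ U' ⊆ U, U'.Nonempty → ∃ v ∈ U', ∀ u ∈ U', ∀ u' ∈ U', G.Adj v u → G.Adj v u' → u ≠ u' →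
    G.Adj u u'

lemma Chordal.mono {U W : Finset V} (h : Chordal G U) (hW : W ⊆ U) : Chordal G W :=
  fun U' hU' => h U' (hU'.trans hW)

/-- chordal graphs -/
theorem chordal_nn {D : ℕ} (hk : k = D + 1) (n : ℕ) :
    ∀ U : Finset V, U.card = n → Chordal G U →
    ∀ F : V → Finset (Fin k), Bud G D U U F → NN (zt G U F) := by
  induction n using Nat.strong_induction_on with
  | _ n ih =>
    intro U hU hpeo F hB
    rcases U.eq_empty_or_nonempty with rfl | hne
    · unfold zt
      rw [Yp_empty, one_comp]
      exact nn_one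
    · obtain ⟨v, hv, hcl⟩ := hpeo U Subset.rfl hne
      have hsub : ∀ W ⊆ U, Chordal G W := fun W hW => hpeo.mono hW
      have hWU : U.erase v ⊆ U := erase_subset _ _
      have hWc : (U.erase v).card < n := by rw [← hU]; exact card_erase_lt_of_mem hv
      have hbud : (F v).card + (G.neighborFinset v ∩ U).card ≤ D := by
        have := hB v hv; omega
      have h0 : NN (zt G (U.erase v) F) := by
        refine ih _ hWc _ rfl (hsub _ hWU) F ?_
        intro x hx
        have h1 := hB x (hWU hx)
        have h2 := card_erase_le' (G := G) U v x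
        omega
      have h1 : ∀ u ∈ G.neighborFinset v ∩ U, ∀ a : Fin k,
          NN (zt G ((U.erase v).erase u) (addF F a (G.neighborFinset u))) := by
        intro u hu a
        have huU : u ∈ U := (mem_inter.mp hu).2
        have huW : u ∈ U.erase v := by
          rw [mem_inter, SimpleGraph.mem_neighborFinset] at hu
          exact mem_erase.mpr ⟨hu.1.ne', hu.2⟩
        refine ih _ (lt_of_le_of_lt (card_le_card (erase_subset _ _)) hWc) _ rfl
          (hsub _ ((erase_subset _ _).trans hWU)) _ ?_
        intro x hx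
        have hxU : x ∈ U := hWU (mem_of_mem_erase hx)
        have h1 := hB x hxU
        have h2 := card_erase_le' (G := G) U v x
        unfold addF
        split_ifs with hN
        · have h3 := card_erase_nbr (G := G) huW hN
          have h4 := card_insert_le a (F x)
          omega
        · have h3 := card_erase_le' (G := G) (U.erase v) u x
          omega
      have h2 : zt G U F = (X + C ((D : ℝ) - (F v).card - (G.neighborFinset v ∩ U).card))
          * zt G (U.erase v) F
          + ∑ u ∈ G.neighborFinset v ∩ U, ∑ a ∈ F v \ F u,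
            zt G ((U.erase v).erase u) (addF F a (G.neighborFinset u)) := by
        unfold zt
        rw [Yp_simplicial F hv hcl, add_comp, mul_comp, add_comp, X_comp, C_comp]
        simp only [Polynomial.sum_comp]
        have h5 : X + C (-1 : ℝ) + C ((k : ℝ) - (F v).card - (G.neighborFinset v ∩ U).card)
            = X + C ((D : ℝ) - (F v).card - (G.neighborFinset v ∩ U).card) := by
          rw [add_assoc, ← C_add]
          congr 2
          have hkD : (k : ℝ) = (D : ℝ) + 1 := by rw [hk]; push_cast; ring
          linarith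
        rw [h5]
      rw [h2]
      refine NN.add (NN.mul (nn_X_add ?_) h0) ?_
      · have : (((F v).card + (G.neighborFinset v ∩ U).card : ℕ) : ℝ) ≤ D := by
          exact_mod_cast hbud
        push_cast at this
        linarith
      · intro i
        refine coeff_sum_nonneg (fun u hu => ?_) i
        exact coeff_sum_nonneg (fun a _ => (h1 u hu a).1)

lemma Yp_unused {U T : Finset V} {F : V → Finset (Fin k)} {a : Fin k}
    (ha : ∀ v ∈ U, a ∉ F v) : Yp G U T F = Yp G U ∅ (addF F a T) :=
  Polynomial.funext fun _ => yy_eq_zz ha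

/-- colouring the vertices of `W` first, coefficientwise form -/
theorem lift_nn {D : ℕ} (hk : k = D + 1) {U : Finset V}
    (hbase : ∀ F : V → Finset (Fin k), Bud G D U U F → NN (zt G U F)) (n : ℕ) :
    ∀ W : Finset V, Disjoint W U → W.card = n → ∀ (J : Finset (Fin k))
      (F : V → Finset (Fin k)), (∀ v ∈ W ∪ U, F v ⊆ J) → J.card + W.card ≤ k →
      Bud G D U (W ∪ U) F → NN (zt G (W ∪ U) F) := by
  induction n with
  | zero =>
    intro W _ hW J F _ _ hB
    rw [card_eq_zero] at hW
    subst hW
    rw [empty_union] at hB ⊢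
    exact hbase F hB
  | succ n ih =>
    intro W hdis hW J F hFJ hJ hB
    obtain ⟨w, hw⟩ : W.Nonempty := by rw [← card_pos]; omega
    have hwU : w ∉ U := fun h => (disjoint_left.mp hdis) hw h
    have hwS : w ∈ W ∪ U := mem_union_left _ hw
    have hc : (W.erase w).card = n := by rw [card_erase_of_mem hw]; omega
    have hS : (W ∪ U).erase w = W.erase w ∪ U := by
      rw [erase_union_distrib, erase_eq_of_notMem hwU]
    have hdis' : Disjoint (W.erase w) U := disjoint_of_subset_left (erase_subset _ _) hdis
    have hmem : ∀ v ∈ W.erase w ∪ U, v ∈ W ∪ U := by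
      intro v hv
      rcases mem_union.mp hv with h | h
      · exact mem_union_left _ (mem_of_mem_erase h)
      · exact mem_union_right _ h
    have hpos : ∀ a : Fin k, NN (zt G (W.erase w ∪ U) (addF F a (G.neighborFinset w))) := by
      intro a
      refine ih (W.erase w) hdis' hc (insert a J) _ ?_ ?_ ?_
      · intro v hv
        have h1 := hmem v hv
        unfold addF
        split_ifs
        · exact insert_subset_insert _ (hFJ v h1)
        · exact (hFJ v h1).trans (subset_insert _ _)
      · have := card_insert_le a J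
        omega
      · rw [← hS]
        exact hB.step hwS a
    obtain ⟨a0, ha0⟩ : ∃ a0 : Fin k, a0 ∉ J := by
      by_contra hcon
      push Not at hcon
      have h1 := card_le_card (show (univ : Finset (Fin k)) ⊆ J from fun a _ => hcon a)
      rw [card_univ, Fintype.card_fin] at h1
      omega
    have h1 : Yp G (W.erase w ∪ U) (G.neighborFinset w) F
        = Yp G (W.erase w ∪ U) ∅ (addF F a0 (G.neighborFinset w)) :=
      Yp_unused fun v hv hav => ha0 (hFJ v (hmem v hv) hav)
    have ha0w : a0 ∈ univ \ F w := by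
      rw [mem_sdiff]
      exact ⟨mem_univ _, fun h => ha0 (hFJ w hwS h)⟩
    have h2 : zt G (W ∪ U) F = X * zt G (W.erase w ∪ U) (addF F a0 (G.neighborFinset w))
        + ∑ a ∈ (univ \ F w).erase a0, zt G (W.erase w ∪ U)
          (addF F a (G.neighborFinset w)) := by
      unfold zt
      rw [Yp_rec hwS, hS, h1, ← add_sum_erase _ _ ha0w, add_comp, add_comp, mul_comp, X_comp,
        Polynomial.sum_comp, C_neg, C_1]
      ring
    rw [h2]
    refine NN.add (NN.mul ?_ (hpos a0)) (coeff_sum_nonneg fun a _ => (hpos a).1)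
    have := nn_X_add (c := 0) le_rfl
    rwa [C_0, add_zero] at this

/-- deletion of at most `D + 1` vertices leaves a chordal graph -/
theorem chordal_deletion {D : ℕ} {W : Finset V} (hW : W.card ≤ D + 1)
    (hdeg : ∀ v, v ∉ W → G.degree v ≤ D) (hch : Chordal G Wᶜ)
    (P : ℝ[X]) (hP : ∀ n : ℕ, P.eval (n : ℝ) = Nat.card (G.Coloring (Fin n))) :
    NN (P.comp (X + C (D : ℝ))) := by
  have h1 : P.comp (X + C ((D + 1 : ℕ) : ℝ))
      = Yp G univ ∅ (fun _ => (∅ : Finset (Fin (D + 1)))) := by
    apply Polynomial.funext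
    intro θ
    rw [eval_comp, eval_add, eval_X, eval_C, add_comm θ]
    exact chromatic_eval P hP θ
  have h2 : P.comp (X + C (D : ℝ)) = zt G univ (fun _ => (∅ : Finset (Fin (D + 1)))) := by
    unfold zt
    rw [← h1, comp_assoc, add_comp, X_comp, C_comp]
    congr 1
    rw [add_assoc, ← C_add]
    congr 2
    push_cast
    ring
  rw [h2]
  have hS : (univ : Finset V) = W ∪ Wᶜ := (union_compl W).symm
  rw [hS]
  refine lift_nn (D := D) rfl ?_ W.card W disjoint_compl_right rfl ∅ _
    (fun v _ => Subset.rfl) (by rw [card_empty]; omega) ?_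
  · intro F hF
    exact chordal_nn rfl _ _ rfl hch F hF
  · intro v hv
    rw [← hS, inter_univ, SimpleGraph.card_neighborFinset_eq_degree, card_empty, add_zero]
    exact hdeg v (mem_compl.mp hv)

end Chd

end Pool.Agent.Lib.MP_601de6_co
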