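import Mathlib

namespace Pool.Agent.Lib.MP_601de6_co

open Finset

section Count

variable {V : Type*} [DecidableEq V] [Fintype V] (G : SimpleGraph V) [DecidableRel G.Adj]
variable {C : Type*} [DecidableEq C] [Fintype C]

/-- `φ` is a proper colouring of the subgraph induced on `U` from the lists `A`
(and is undefined outside `U`). -/
def Good (U : Finset V) (A : V → Finset C) (φ : V → Option C) : Prop :=
  (∀ v, v ∉ U → φ v = none) ∧ (∀ v ∈ U, ∃ c ∈ A v, φ v = some c) ∧
    (∀ u v, G.Adj u v → ∀ c, φ u = some c → φ v ≠ some c)

open Classical in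
/-- number of proper list colourings of the subgraph induced on `U` -/
noncomputable def cnt (U : Finset V) (A : V → Finset C) : ℕ :=
  (univ.filter (fun φ : V → Option C => Good G U A φ)).card

/-- remove colour `c` from the lists of the vertices of `X` -/
def rem (A : V → Finset C) (c : C) (X : Finset V) : V → Finset C :=
  fun v => if v ∈ X then (A v).erase c else A v

variable {G}

lemma cnt_congr {U : Finset V} {A B : V → Finset C} (h : ∀ v ∈ U, A v = B v) :
    cnt G U A = cnt G U B := by
  classical
  unfold cnt
  congr 1
  ext φ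
  simp only [mem_filter, mem_univ, true_and]
  unfold Good
  constructor
  · rintro ⟨h1, h2, h3⟩
    refine ⟨h1, fun v hv => ?_, h3⟩
    obtain ⟨c, hc, hc'⟩ := h2 v hv
    exact ⟨c, by rw [← h v hv]; exact hc, hc'⟩
  · rintro ⟨h1, h2, h3⟩
    refine ⟨h1, fun v hv => ?_, h3⟩
    obtain ⟨c, hc, hc'⟩ := h2 v hv
    exact ⟨c, by rw [h v hv]; exact hc, hc'⟩

lemma cnt_empty (A : V → Finset C) : cnt G ∅ A = 1 := by
  classical
  unfold cnt
  rw [card_eq_one]
  refine ⟨fun _ => none, ?_⟩
  ext φ
  simp only [mem_filter, mem_univ, true_and, mem_singleton]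
  constructor
  · rintro ⟨h1, -, -⟩
    funext v
    exact h1 v (by simp)
  · rintro rfl
    refine ⟨fun _ _ => rfl, by simp, ?_⟩
    intro u v _ c hc
    simp at hc

open Classical in
/-- colourings with `φ u = c` correspond to colourings of `U \ u` -/
lemma fiber_card {U : Finset V} {A : V → Finset C} {u : V} (hu : u ∈ U) {c : C} (hc : c ∈ A u) :
    ((univ.filter (fun φ : V → Option C => Good G U A φ)).filter
      (fun φ => φ u = some c)).card = cnt G (U.erase u) (rem A c (G.neighborFinset u)) := by
  unfold cnt
  refine card_bij' (fun φ _ => Function.update φ u none) (fun ψ _ => Function.update ψ u (some c))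
    ?_ ?_ ?_ ?_
  · intro φ hφ
    simp only [mem_filter, mem_univ, true_and] at hφ ⊢
    obtain ⟨⟨h1, h2, h3⟩, h4⟩ := hφ
    refine ⟨?_, ?_, ?_⟩
    · intro v hv
      by_cases hvu : v = u
      · subst hvu; simp
      · rw [Function.update_of_ne hvu]
        apply h1
        intro hvU
        exact hv (mem_erase.mpr ⟨hvu, hvU⟩)
    · intro v hv
      obtain ⟨hvu, hvU⟩ := mem_erase.mp hv
      rw [Function.update_of_ne hvu]
      obtain ⟨d, hd, hd'⟩ := h2 v hvU
      refine ⟨d, ?_, hd'⟩
      unfold rem
      split_ifs with hN
      · rw [SimpleGraph.mem_neighborFinset] at hN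
        refine mem_erase.mpr ⟨?_, hd⟩
        rintro rfl
        exact h3 u v hN d h4 hd'
      · exact hd
    · intro x y hxy d hx hy
      by_cases hxu : x = u
      · subst hxu; simp at hx
      · by_cases hyu : y = u
        · subst hyu; simp at hy
        · rw [Function.update_of_ne hxu] at hx
          rw [Function.update_of_ne hyu] at hy
          exact h3 x y hxy d hx hy
  · intro ψ hψ
    simp only [mem_filter, mem_univ, true_and] at hψ ⊢
    obtain ⟨h1, h2, h3⟩ := hψ
    have key : ∀ y, G.Adj u y → ψ y ≠ some c := by
      intro y hy hyc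
      by_cases hyU : y ∈ U.erase u
      · obtain ⟨d, hd, hd'⟩ := h2 y hyU
        rw [hyc] at hd'
        have : d = c := by injection hd' with h; exact h.symm
        subst this
        unfold rem at hd
        rw [if_pos ((SimpleGraph.mem_neighborFinset _ _ _).mpr hy)] at hd
        exact (mem_erase.mp hd).1 rfl
      · rw [h1 y hyU] at hyc
        simp at hyc
    refine ⟨⟨?_, ?_, ?_⟩, by simp⟩
    · intro v hv
      have hvu : v ≠ u := by rintro rfl; exact hv hu
      rw [Function.update_of_ne hvu]
      exact h1 v (fun h => hv (mem_of_mem_erase h))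
    · intro v hv
      by_cases hvu : v = u
      · subst hvu; exact ⟨c, hc, by simp⟩
      · rw [Function.update_of_ne hvu]
        obtain ⟨d, hd, hd'⟩ := h2 v (mem_erase.mpr ⟨hvu, hv⟩)
        refine ⟨d, ?_, hd'⟩
        unfold rem at hd
        split_ifs at hd with hN
        · exact (mem_erase.mp hd).2
        · exact hd
    · intro x y hxy d hx hy
      by_cases hxu : x = u
      · subst hxu
        have hyu : y ≠ x := fun h => by subst h; exact G.loopless.irrefl _ hxy
        rw [Function.update_self] at hx
        rw [Function.update_of_ne hyu] at hy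
        injection hx with hx
        subst hx
        exact key y hxy hy
      · by_cases hyu : y = u
        · subst hyu
          rw [Function.update_self] at hy
          rw [Function.update_of_ne hxu] at hx
          injection hy with hy
          subst hy
          exact key x hxy.symm hx
        · rw [Function.update_of_ne hxu] at hx
          rw [Function.update_of_ne hyu] at hy
          exact h3 x y hxy d hx hy
  · intro φ hφ
    simp only [mem_filter, mem_univ, true_and] at hφ
    funext v
    by_cases hv : v = u
    · subst hv; simp [hφ.2]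
    · simp [Function.update_of_ne hv]
  · intro ψ hψ
    simp only [mem_filter, mem_univ, true_and] at hψ
    funext v
    by_cases hv : v = u
    · subst hv
      simp only [Function.update_self]
      exact (hψ.1 v (by simp)).symm
    · simp [Function.update_of_ne hv]

/-- recursion on the colour of `u` -/
lemma cnt_rec {U : Finset V} (A : V → Finset C) {u : V} (hu : u ∈ U) :
    cnt G U A = ∑ c ∈ A u, cnt G (U.erase u) (rem A c (G.neighborFinset u)) := by
  classical
  rw [show cnt G U A = (univ.filter (fun φ : V → Option C => Good G U A φ)).card from by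
    unfold cnt; congr]
  have hmap : ∀ φ ∈ univ.filter (fun φ : V → Option C => Good G U A φ),
      φ u ∈ (A u).image some := by
    intro φ hφ
    simp only [mem_filter, mem_univ, true_and] at hφ
    obtain ⟨c, hc, hc'⟩ := hφ.2.1 u hu
    rw [hc']
    exact mem_image_of_mem _ hc
  rw [card_eq_sum_card_fiberwise hmap, sum_image (by intro a _ b _ h; injection h)]
  refine sum_congr rfl fun c hc => ?_
  rw [← fiber_card hu hc]

/-- splitting off the colourings with `φ u = c` -/
lemma cnt_split {U : Finset V} (A : V → Finset C) {u : V} (hu : u ∈ U) {c : C} (hc : c ∈ A u) :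
    cnt G U A = cnt G U (rem A c {u}) + cnt G (U.erase u) (rem A c (G.neighborFinset u)) := by
  have h1 := cnt_rec (G := G) A hu
  have h2 := cnt_rec (G := G) (rem A c {u}) hu
  have hA : rem A c {u} u = (A u).erase c := by simp [rem]
  rw [hA] at h2
  have h3 : ∀ d ∈ (A u).erase c, cnt G (U.erase u) (rem (rem A c {u}) d (G.neighborFinset u))
      = cnt G (U.erase u) (rem A d (G.neighborFinset u)) := by
    intro d _
    apply cnt_congr
    intro v hv
    have hvu : v ≠ u := (mem_erase.mp hv).1
    simp [rem, hvu]
  rw [sum_congr rfl h3] at h2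
  rw [h1, h2]
  exact (sum_erase_add _ _ hc).symm

/-- symmetry under permutations of colours -/
lemma cnt_perm {U : Finset V} (A : V → Finset C) (σ : Equiv.Perm C) :
    cnt G U (fun v => (A v).image σ) = cnt G U A := by
  classical
  unfold cnt
  symm
  refine card_bij' (fun φ _ => fun v => (φ v).map σ) (fun ψ _ => fun v => (ψ v).map σ.symm)
    ?_ ?_ ?_ ?_
  · intro φ hφ
    simp only [mem_filter, mem_univ, true_and] at hφ ⊢
    obtain ⟨h1, h2, h3⟩ := hφ
    refine ⟨?_, ?_, ?_⟩
    · intro v hv; simp [h1 v hv]
    · intro v hv
      obtain ⟨c, hc, hc'⟩ := h2 v hv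
      exact ⟨σ c, mem_image_of_mem _ hc, by simp [hc']⟩
    · intro x y hxy d hx hy
      simp only [Option.map_eq_some_iff] at hx hy
      obtain ⟨a, ha, rfl⟩ := hx
      obtain ⟨b, hb, hb'⟩ := hy
      have := σ.injective hb'
      subst this
      exact h3 x y hxy b ha hb
  · intro ψ hψ
    simp only [mem_filter, mem_univ, true_and] at hψ ⊢
    obtain ⟨h1, h2, h3⟩ := hψ
    refine ⟨?_, ?_, ?_⟩
    · intro v hv; simp [h1 v hv]
    · intro v hv
      obtain ⟨c, hc, hc'⟩ := h2 v hv
      obtain ⟨a, ha, rfl⟩ := mem_image.mp hc
      exact ⟨a, ha, by simp [hc']⟩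
    · intro x y hxy d hx hy
      simp only [Option.map_eq_some_iff] at hx hy
      obtain ⟨a, ha, rfl⟩ := hx
      obtain ⟨b, hb, hb'⟩ := hy
      have := σ.symm.injective hb'
      subst this
      exact h3 x y hxy b ha hb
  · intro φ _
    funext v
    simp [Option.map_map]
  · intro φ _
    funext v
    simp [Option.map_map]

end Count

end Pool.Agent.Lib.MP_601de6_co
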