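import Pool.Agent.Lib.MP_601de6_co.Final

namespace Pool.Agent.Lib.MP_601de6_co

open Finset Polynomial

section Few

variable {V : Type*} [DecidableEq V] [Fintype V] {G : SimpleGraph V} [DecidableRel G.Adj]
variable {k : ℕ}

/-- degree plus number of forbidden colours at most `D` -/
def Dm (G : SimpleGraph V) [DecidableRel G.Adj] (D : ℕ) (U : Finset V)
    (F : V → Finset (Fin k)) : Prop :=
  ∀ v ∈ U, (G.neighborFinset v ∩ U).card + (F v).card ≤ D

/-- the colours which are forbidden somewhere on `U` -/
def used (U : Finset V) (F : V → Finset (Fin k)) : Finset (Fin k) := U.biUnion F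

/-- the counting function at the real number `k + θ` of colours -/
noncomputable def zz (G : SimpleGraph V) [DecidableRel G.Adj] (θ : ℝ) (U : Finset V)
    (F : V → Finset (Fin k)) : ℝ := (Yp G U ∅ F).eval θ

/-- the same with one generic colour forbidden on `X` -/
noncomputable def yy (G : SimpleGraph V) [DecidableRel G.Adj] (θ : ℝ) (U X : Finset V)
    (F : V → Finset (Fin k)) : ℝ := (Yp G U X F).eval θ

variable {θ : ℝ}

lemma zz_congr {U : Finset V} {F F' : V → Finset (Fin k)} (h' : ∀ v ∈ U, F v = F' v) :
    zz G θ U F = zz G θ U F' := by
  unfold zz; rw [Yp_congr (fun _ _ => Iff.rfl) h']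

lemma yy_congr {U X X' : Finset V} {F F' : V → Finset (Fin k)}
    (h : ∀ v ∈ U, (v ∈ X ↔ v ∈ X')) (h' : ∀ v ∈ U, F v = F' v) :
    yy G θ U X F = yy G θ U X' F' := by
  unfold yy; rw [Yp_congr h h']

lemma zz_rec {U : Finset V} {F : V → Finset (Fin k)} {u : V} (hu : u ∈ U) :
    zz G θ U F = ∑ a ∈ univ \ F u, zz G θ (U.erase u) (addF F a (G.neighborFinset u))
      + θ * yy G θ (U.erase u) (G.neighborFinset u) F := by
  unfold zz yy
  rw [Yp_rec hu, eval_add, eval_finsetSum, eval_mul, eval_X]

lemma zz_split {U : Finset V} {F : V → Finset (Fin k)} {u : V}
    (hu : u ∈ U) {a : Fin k} (ha : a ∉ F u) :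
    zz G θ U F = zz G θ U (addF F a {u})
      + zz G θ (U.erase u) (addF F a (G.neighborFinset u)) := by
  unfold zz
  rw [Yp_split hu ha, eval_add]

lemma yy_insert {U X : Finset V} {F : V → Finset (Fin k)} {u : V}
    (hu : u ∈ U) (hX : u ∉ X) :
    yy G θ U (insert u X) F = yy G θ U X F - yy G θ (U.erase u) (X ∪ G.neighborFinset u) F := by
  unfold yy
  rw [Yp_insert hu hX, eval_sub]

lemma zz_empty {F : V → Finset (Fin k)} : zz G θ ∅ F = 1 := by
  unfold zz; rw [Yp_empty]; simp

/-- an unused special colour behaves like a generic one -/
lemma yy_eq_zz {U T : Finset V} {F : V → Finset (Fin k)} {a : Fin k}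
    (ha : ∀ v ∈ U, a ∉ F v) :
    yy G θ U T F = zz G θ U (addF F a T) := by
  unfold yy zz
  congr 1
  apply poly_ext
  intro m hm
  rw [Yp_eval hm, Yp_eval hm]
  congr 1
  unfold cY
  rw [← cnt_perm (LA m F T) (Equiv.swap (Sum.inl a) (Sum.inr ⟨0, hm⟩))]
  apply cnt_congr
  intro v hv
  have hav := ha v hv
  ext c
  simp only [mem_image]
  unfold LA addF
  constructor
  · rintro ⟨e, he, rfl⟩
    rcases e with e | e
    · by_cases hea : e = a
      · subst hea
        rw [Equiv.swap_apply_left]
        simp
      · rw [Equiv.swap_apply_of_ne_of_ne (by simpa using hea) (by simp)]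
        simp only [inl_mem_disjSum, mem_sdiff, mem_univ, true_and] at he ⊢
        split_ifs with hT
        · simp [he, hea]
        · exact he
    · by_cases he0 : e = ⟨0, hm⟩
      · subst he0
        rw [Equiv.swap_apply_right]
        simp only [inr_mem_disjSum, mem_filter, mem_univ, true_and] at he
        have hT : v ∉ T := fun h => he h rfl
        simp only [inl_mem_disjSum, mem_sdiff, mem_univ, true_and, if_neg hT]
        exact hav
      · rw [Equiv.swap_apply_of_ne_of_ne (by simp) (by simpa using he0)]
        simp
  · intro hc
    refine ⟨Equiv.swap (Sum.inl a) (Sum.inr ⟨0, hm⟩) c, ?_, Equiv.swap_apply_self _ _ _⟩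
    rcases c with e | e
    · by_cases hea : e = a
      · subst hea
        rw [Equiv.swap_apply_left]
        simp only [inl_mem_disjSum, mem_sdiff, mem_univ, true_and] at hc
        have hT : v ∉ T := by
          intro h
          rw [if_pos h] at hc
          exact hc (mem_insert_self _ _)
        simp [hT]
      · rw [Equiv.swap_apply_of_ne_of_ne (by simpa using hea) (by simp)]
        simp only [inl_mem_disjSum, mem_sdiff, mem_univ, true_and] at hc ⊢
        split_ifs at hc with hT
        · intro h; exact hc (mem_insert_of_mem h)
        · exact hc
    · by_cases he0 : e = ⟨0, hm⟩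
      · subst he0
        rw [Equiv.swap_apply_right]
        simp [hav]
      · rw [Equiv.swap_apply_of_ne_of_ne (by simp) (by simpa using he0)]
        simp only [inr_mem_disjSum, mem_filter, mem_univ, true_and]
        intro _ h
        exact he0 (Fin.ext h)

/-- splitting for an arbitrary special colour on one more vertex -/
lemma zz_addF_insert {U S : Finset V} {F : V → Finset (Fin k)} {s : V} (hs : s ∈ U)
    (hS : s ∉ S) {a : Fin k} :
    zz G θ U (addF F a (insert s S)) = zz G θ U (addF F a S)
      - (if a ∈ F s then 0 else zz G θ (U.erase s) (addF F a (S ∪ G.neighborFinset s))) := by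
  by_cases ha : a ∈ F s
  · rw [if_pos ha, sub_zero]
    apply zz_congr
    intro v _
    unfold addF
    by_cases hvs : v = s
    · subst hvs; simp [hS, ha]
    · simp [hvs]
  · rw [if_neg ha]
    have h1 : a ∉ addF F a S s := by unfold addF; rw [if_neg hS]; exact ha
    have h2 := zz_split (G := G) (θ := θ) (F := addF F a S) hs h1
    rw [h2]
    have h3 : zz G θ U (addF (addF F a S) a {s}) = zz G θ U (addF F a (insert s S)) := by
      apply zz_congr
      intro v _
      unfold addF
      by_cases hvs : v = s
      · subst hvs; simp [hS]
      · simp [hvs]
    have h4 : zz G θ (U.erase s) (addF (addF F a S) a (G.neighborFinset s))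
        = zz G θ (U.erase s) (addF F a (S ∪ G.neighborFinset s)) := by
      apply zz_congr
      intro v _
      unfold addF
      by_cases h5 : v ∈ S <;> by_cases h6 : v ∈ G.neighborFinset s <;> simp [h5, h6]
    rw [h3, h4]
    ring

lemma used_mono {U W : Finset V} (h : W ⊆ U) (F : V → Finset (Fin k)) :
    used W F ⊆ used U F := biUnion_subset_biUnion_of_subset_left _ h

lemma used_addF {U W : Finset V} (h : W ⊆ U) (F : V → Finset (Fin k)) (a : Fin k)
    (T : Finset V) : used W (addF F a T) ⊆ insert a (used U F) := by
  intro c hc
  unfold used at hc
  rw [mem_biUnion] at hc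
  obtain ⟨v, hv, hc⟩ := hc
  unfold addF at hc
  split_ifs at hc with hT
  · rcases mem_insert.mp hc with rfl | hc
    · exact mem_insert_self _ _
    · exact mem_insert_of_mem (mem_biUnion.mpr ⟨v, h hv, hc⟩)
  · exact mem_insert_of_mem (mem_biUnion.mpr ⟨v, h hv, hc⟩)

/-- removing vertices, every vertex of `T` losing a neighbour -/
lemma Dm.addF {D : ℕ} {U W T : Finset V} {F : V → Finset (Fin k)} (h : Dm G D U F)
    (hW : W ⊆ U) (a : Fin k)
    (hT : ∀ v ∈ W, v ∈ T → ∃ w ∈ U, w ∉ W ∧ G.Adj v w) : Dm G D W (addF F a T) := by
  intro v hv
  have h1 := h v (hW hv)
  have h2 : (G.neighborFinset v ∩ W).card ≤ (G.neighborFinset v ∩ U).card :=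
    card_le_card (inter_subset_inter_left hW)
  unfold Pool.Agent.Lib.MP_601de6_co.addF
  split_ifs with hvT
  · obtain ⟨w, hwU, hwW, hadj⟩ := hT v hv hvT
    have h3 : (G.neighborFinset v ∩ W).card < (G.neighborFinset v ∩ U).card := by
      apply card_lt_card
      refine ⟨inter_subset_inter_left hW, fun hsub => ?_⟩
      have h4 : w ∈ G.neighborFinset v ∩ U :=
        mem_inter.mpr ⟨(SimpleGraph.mem_neighborFinset _ _ _).mpr hadj, hwU⟩
      exact hwW (mem_inter.mp (hsub h4)).2
    have h5 := card_insert_le a (F v)
    omega
  · omega

lemma Dm.mono {D : ℕ} {U W : Finset V} {F : V → Finset (Fin k)} (h : Dm G D U F)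
    (hW : W ⊆ U) : Dm G D W F := by
  intro v hv
  have h1 := h v (hW hv)
  have h2 : (G.neighborFinset v ∩ W).card ≤ (G.neighborFinset v ∩ U).card :=
    card_le_card (inter_subset_inter_left hW)
  omega

/-- the sum over all colours, special and generic, of the counting functions -/
lemma all_colours_nonneg {U W T : Finset V} {F : V → Finset (Fin k)} {B : Finset (Fin k)}
    (hW : W ⊆ U) (hB : B ⊆ used U F) (hcard : ((used U F).card : ℝ) ≤ k + θ)
    (hused : (used U F).card < k)
    (hpos : ∀ a, 0 ≤ zz G θ W (addF F a T)) :
    0 ≤ ∑ a ∈ univ \ B, zz G θ W (addF F a T) + θ * yy G θ W T F := by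
  have hun : ∀ a, a ∉ used U F → yy G θ W T F = zz G θ W (addF F a T) := by
    intro a ha
    apply yy_eq_zz
    intro v hv hav
    exact ha (mem_biUnion.mpr ⟨v, hW hv, hav⟩)
  obtain ⟨a0, ha0⟩ : ∃ a0 : Fin k, a0 ∉ used U F := by
    by_contra hcon
    push Not at hcon
    have : (univ : Finset (Fin k)) ⊆ used U F := fun a _ => hcon a
    have h1 := card_le_card this
    rw [card_univ, Fintype.card_fin] at h1
    omega
  have hy : 0 ≤ yy G θ W T F := by rw [hun a0 ha0]; exact hpos a0
  have hsplit : (univ : Finset (Fin k)) \ B = (used U F \ B) ∪ (univ \ used U F) := by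
    ext a
    simp only [mem_sdiff, mem_univ, true_and, mem_union]
    constructor
    · intro h
      by_cases h1 : a ∈ used U F
      · exact Or.inl ⟨h1, h⟩
      · exact Or.inr h1
    · rintro (h | h)
      · exact h.2
      · exact fun h1 => h (hB h1)
  rw [hsplit, sum_union]
  · have h1 : ∑ a ∈ univ \ used U F, zz G θ W (addF F a T)
        = (k - (used U F).card : ℝ) * yy G θ W T F := by
      rw [sum_congr rfl (fun a ha => (hun a (mem_sdiff.mp ha).2).symm), sum_const, nsmul_eq_mul]
      congr 1
      rw [card_sdiff_of_subset (subset_univ _), card_univ, Fintype.card_fin,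
        Nat.cast_sub hused.le]
    rw [h1]
    have h2 : 0 ≤ ∑ a ∈ used U F \ B, zz G θ W (addF F a T) := sum_nonneg fun a _ => hpos a
    nlinarith
  · rw [disjoint_left]
    intro a h1 h2
    exact (mem_sdiff.mp h2).2 (mem_sdiff.mp h1).1

theorem zz_pos {D : ℕ} (hk : k = D + 1) (hθ : -1 < θ) (n : ℕ) : ∀ U : Finset V, U.card = n →
    ∀ F : V → Finset (Fin k), Dm G D U F → U.card + 3 * (used U F).card ≤ 3 * D + 5 →
    0 < zz G θ U F := by
  induction n using Nat.strong_induction_on with
  | _ n ih =>
    intro U hU F hD hm
    rcases U.eq_empty_or_nonempty with rfl | ⟨v, hv⟩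
    · rw [zz_empty]; exact one_pos
    set W := U.erase v with hWdef
    have hWU : W ⊆ U := erase_subset _ _
    have hWc : W.card + 1 = U.card := card_erase_add_one hv
    have hWpos : 0 < zz G θ W F := by
      refine ih _ (by omega) W rfl F (hD.mono hWU) ?_
      have := card_le_card (used_mono hWU F)
      omega
    have hq : (k : ℝ) + θ = D + 1 + θ := by rw [hk]; push_cast; ring
    -- second level
    have hPsi : ∀ u ∈ W, u ∈ G.neighborFinset v → ∀ S : Finset V,
        S ⊆ G.neighborFinset v → u ∉ S →
        0 ≤ ∑ a ∈ univ \ (F u ∪ F v), (zz G θ (W.erase u) (addF F a (G.neighborFinset u))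
            - zz G θ (W.erase u) (addF F a (S ∪ G.neighborFinset u)))
          + θ * (yy G θ (W.erase u) (G.neighborFinset u) F
            - yy G θ (W.erase u) (S ∪ G.neighborFinset u) F) := by
      intro u hu huv S
      induction S using Finset.induction_on with
      | empty =>
        intro _ _
        simp
      | insert s S hsS ihS =>
        intro hsub hus
        have h0 := ihS (fun x hx => hsub (mem_insert_of_mem hx))
          (fun h => hus (mem_insert_of_mem h))
        have hsv : s ∈ G.neighborFinset v := hsub (mem_insert_self _ _)
        have hsu : s ≠ u := fun h => hus (h ▸ mem_insert_self _ _)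
        by_cases hcase : s ∈ W.erase u ∧ s ∉ G.neighborFinset u
        · obtain ⟨hsW, hsN⟩ := hcase
          set T := S ∪ G.neighborFinset u with hT
          have hsT : s ∉ T := by
            rw [hT, mem_union]; tauto
          have hins : insert s S ∪ G.neighborFinset u = insert s T := by
            rw [hT, insert_union]
          rw [hins]
          have hW2U : (W.erase u).erase s ⊆ U :=
            (erase_subset _ _).trans ((erase_subset _ _).trans hWU)
          have hc1 : (W.erase u).card + 1 = W.card := card_erase_add_one hu
          have hc2 : ((W.erase u).erase s).card + 1 = (W.erase u).card :=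
            card_erase_add_one hsW
          have hBsub : F u ∪ F v ∪ F s ⊆ used U F := by
            intro a ha
            rw [mem_union, mem_union] at ha
            rcases ha with (ha | ha) | ha
            · exact mem_biUnion.mpr ⟨u, hWU hu, ha⟩
            · exact mem_biUnion.mpr ⟨v, hv, ha⟩
            · exact mem_biUnion.mpr ⟨s, hWU (mem_of_mem_erase hsW), ha⟩
          have hmD : (used U F).card ≤ D := by omega
          have hallpos : ∀ a, 0 ≤ zz G θ ((W.erase u).erase s)
              (addF F a (T ∪ G.neighborFinset s)) := by
            intro a
            refine (ih _ (by omega) ((W.erase u).erase s) rfl _ ?_ ?_).le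
            · refine hD.addF hW2U a ?_
              intro x hx hxT
              have hxs : x ≠ s := (mem_erase.mp hx).1
              have hxu : x ≠ u := (mem_erase.mp (mem_erase.mp hx).2).1
              rw [mem_union, hT, mem_union] at hxT
              rcases hxT with (hxS | hxu') | hxs'
              · refine ⟨v, hv, ?_, ?_⟩
                · intro h
                  exact (mem_erase.mp (mem_of_mem_erase (mem_of_mem_erase h))).1 rfl
                · have := hsub (mem_insert_of_mem hxS)
                  rw [SimpleGraph.mem_neighborFinset] at this
                  exact this.symm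
              · refine ⟨u, hWU hu, ?_, ?_⟩
                · intro h
                  exact (mem_erase.mp (mem_of_mem_erase h)).1 rfl
                · rw [SimpleGraph.mem_neighborFinset] at hxu'
                  exact hxu'.symm
              · refine ⟨s, hWU (mem_of_mem_erase hsW), ?_, ?_⟩
                · intro h
                  exact (mem_erase.mp h).1 rfl
                · rw [SimpleGraph.mem_neighborFinset] at hxs'
                  exact hxs'.symm
            · have h1 := card_le_card (used_addF hW2U F a (T ∪ G.neighborFinset s))
              have h2 := card_insert_le a (used U F)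
              omega
          have hall := all_colours_nonneg (G := G) (θ := θ) (T := T ∪ G.neighborFinset s)
            hW2U hBsub (by
              rw [hq]
              have : ((used U F).card : ℝ) ≤ D := by exact_mod_cast hmD
              linarith) (by omega) hallpos
          have hy : yy G θ (W.erase u) (insert s T) F
              = yy G θ (W.erase u) T F
                - yy G θ ((W.erase u).erase s) (T ∪ G.neighborFinset s) F :=
            yy_insert hsW hsT
          have hz : ∀ a, zz G θ (W.erase u) (addF F a (insert s T))
              = zz G θ (W.erase u) (addF F a T)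
                - (if a ∈ F s then 0 else zz G θ ((W.erase u).erase s)
                    (addF F a (T ∪ G.neighborFinset s))) :=
            fun a => zz_addF_insert hsW hsT
          have hsum : ∑ a ∈ univ \ (F u ∪ F v ∪ F s), zz G θ ((W.erase u).erase s)
                (addF F a (T ∪ G.neighborFinset s))
              = ∑ a ∈ univ \ (F u ∪ F v), (if a ∈ F s then 0 else
                zz G θ ((W.erase u).erase s) (addF F a (T ∪ G.neighborFinset s))) := by
            rw [← sum_filter_add_sum_filter_not (univ \ (F u ∪ F v)) (fun a => a ∈ F s)]
            rw [sum_eq_zero (s := filter (fun a => a ∈ F s) _)]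
            · rw [zero_add]
              apply sum_congr
              · ext a
                simp only [mem_sdiff, mem_univ, true_and, mem_union, mem_filter]
                tauto
              · intro a ha
                rw [if_neg (mem_filter.mp ha).2]
            · intro a ha
              rw [if_pos (mem_filter.mp ha).2]
          rw [hsum] at hall
          have e1 : ∑ a ∈ univ \ (F u ∪ F v),
                (zz G θ (W.erase u) (addF F a (G.neighborFinset u))
                - zz G θ (W.erase u) (addF F a (insert s T)))
              = ∑ a ∈ univ \ (F u ∪ F v),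
                (zz G θ (W.erase u) (addF F a (G.neighborFinset u))
                - zz G θ (W.erase u) (addF F a T))
              + ∑ a ∈ univ \ (F u ∪ F v), (if a ∈ F s then 0 else
                zz G θ ((W.erase u).erase s) (addF F a (T ∪ G.neighborFinset s))) := by
            rw [← sum_add_distrib]
            apply sum_congr rfl
            intro a _
            rw [hz a]
            ring
          rw [e1, hy]
          have e2 : θ * (yy G θ (W.erase u) (G.neighborFinset u) F
                - (yy G θ (W.erase u) T F
                  - yy G θ ((W.erase u).erase s) (T ∪ G.neighborFinset s) F))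
              = θ * (yy G θ (W.erase u) (G.neighborFinset u) F - yy G θ (W.erase u) T F)
                + θ * yy G θ ((W.erase u).erase s) (T ∪ G.neighborFinset s) F := by ring
          rw [e2]
          linarith
        · -- nothing changes
          have hiff : ∀ x ∈ W.erase u, (x ∈ insert s S ∪ G.neighborFinset u ↔
              x ∈ S ∪ G.neighborFinset u) := by
            intro x hx
            simp only [mem_union, mem_insert]
            constructor
            · rintro ((rfl | h) | h)
              · right
                by_contra hcon
                exact hcase ⟨hx, hcon⟩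
              · exact Or.inl h
              · exact Or.inr h
            · rintro (h | h)
              · exact Or.inl (Or.inr h)
              · exact Or.inr h
          have hy : yy G θ (W.erase u) (insert s S ∪ G.neighborFinset u) F
              = yy G θ (W.erase u) (S ∪ G.neighborFinset u) F :=
            yy_congr hiff (fun _ _ => rfl)
          have hz : ∀ a, zz G θ (W.erase u) (addF F a (insert s S ∪ G.neighborFinset u))
              = zz G θ (W.erase u) (addF F a (S ∪ G.neighborFinset u)) := by
            intro a
            apply zz_congr
            intro x hx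
            unfold addF
            simp only [hiff x hx]
          simp only [hz, hy]
          exact h0
    -- first level
    have hPhi : ∀ S : Finset V, S ⊆ G.neighborFinset v ∩ U →
        ((k : ℝ) + θ - (F v).card - S.card) * zz G θ W F
          ≤ ∑ a ∈ univ \ F v, zz G θ W (addF F a S) + θ * yy G θ W S F := by
      intro S
      induction S using Finset.induction_on with
      | empty =>
        intro _
        have h1 : ∀ a, zz G θ W (addF F a ∅) = zz G θ W F := by
          intro a
          apply zz_congr
          intro x _
          simp [addF]
        simp only [h1, sum_const, nsmul_eq_mul, card_empty, Nat.cast_zero, sub_zero]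
        rw [card_sdiff_of_subset (subset_univ _), card_univ, Fintype.card_fin,
          Nat.cast_sub (by simpa using card_le_univ (F v))]
        unfold yy zz
        apply le_of_eq
        ring
      | insert u S huS ihS =>
        intro hsub
        have h0 := ihS (fun x hx => hsub (mem_insert_of_mem hx))
        have huvU := hsub (mem_insert_self u S)
        obtain ⟨huv, huU⟩ := mem_inter.mp huvU
        have huv' : u ≠ v := by
          rintro rfl
          rw [SimpleGraph.mem_neighborFinset] at huv
          exact G.loopless.irrefl _ huv
        have huW : u ∈ W := mem_erase.mpr ⟨huv', huU⟩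
        have hSsub : S ⊆ G.neighborFinset v :=
          fun x hx => (mem_inter.mp (hsub (mem_insert_of_mem hx))).1
        have hP := hPsi u huW huv S hSsub huS
        have hy : yy G θ W (insert u S) F
            = yy G θ W S F - yy G θ (W.erase u) (S ∪ G.neighborFinset u) F :=
          yy_insert huW huS
        have hz : ∀ a, zz G θ W (addF F a (insert u S))
            = zz G θ W (addF F a S)
              - (if a ∈ F u then 0 else zz G θ (W.erase u)
                  (addF F a (S ∪ G.neighborFinset u))) :=
          fun a => zz_addF_insert huW huS
        have hrec := zz_rec (G := G) (θ := θ) (F := F) huW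
        have hsum : ∑ a ∈ univ \ (F u ∪ F v), zz G θ (W.erase u)
              (addF F a (S ∪ G.neighborFinset u))
            = ∑ a ∈ univ \ F v, (if a ∈ F u then 0 else
              zz G θ (W.erase u) (addF F a (S ∪ G.neighborFinset u))) := by
          rw [← sum_filter_add_sum_filter_not (univ \ F v) (fun a => a ∈ F u)]
          rw [sum_eq_zero (s := filter (fun a => a ∈ F u) _)]
          · rw [zero_add]
            apply sum_congr
            · ext a
              simp only [mem_sdiff, mem_univ, true_and, mem_union, mem_filter]
              tauto
            · intro a ha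
              rw [if_neg (mem_filter.mp ha).2]
          · intro a ha
            rw [if_pos (mem_filter.mp ha).2]
        have hsum2 : ∑ a ∈ univ \ F u, zz G θ (W.erase u) (addF F a (G.neighborFinset u))
            = ∑ a ∈ univ \ (F u ∪ F v), zz G θ (W.erase u) (addF F a (G.neighborFinset u))
              + ∑ a ∈ F v \ F u, zz G θ (W.erase u) (addF F a (G.neighborFinset u)) := by
          rw [← sum_union]
          · apply sum_congr _ (fun _ _ => rfl)
            ext a
            simp only [mem_sdiff, mem_univ, true_and, mem_union]
            tauto
          · rw [disjoint_left]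
            intro a h1 h2
            exact (mem_sdiff.mp h1).2 (mem_union_right _ (mem_sdiff.mp h2).1)
        have hpos : 0 ≤ ∑ a ∈ F v \ F u,
            zz G θ (W.erase u) (addF F a (G.neighborFinset u)) := by
          apply sum_nonneg
          intro a ha
          have hW1U : W.erase u ⊆ U := (erase_subset _ _).trans hWU
          have hc1 : (W.erase u).card + 1 = W.card := card_erase_add_one huW
          refine (ih _ (by omega) (W.erase u) rfl _ ?_ ?_).le
          · refine hD.addF hW1U a ?_
            intro x _ hxu
            refine ⟨u, huU, fun h => (mem_erase.mp h).1 rfl, ?_⟩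
            rw [SimpleGraph.mem_neighborFinset] at hxu
            exact hxu.symm
          · have h1 := card_le_card (used_addF hW1U F a (G.neighborFinset u))
            have h2 : insert a (used U F) = used U F :=
              insert_eq_of_mem (mem_biUnion.mpr ⟨v, hv, (mem_sdiff.mp ha).1⟩)
            rw [h2] at h1
            omega
        have e1 : ∑ a ∈ univ \ F v, zz G θ W (addF F a (insert u S))
            = ∑ a ∈ univ \ F v, zz G θ W (addF F a S)
              - ∑ a ∈ univ \ (F u ∪ F v), zz G θ (W.erase u)
                (addF F a (S ∪ G.neighborFinset u)) := by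
          rw [hsum, ← sum_sub_distrib]
          exact sum_congr rfl fun a _ => hz a
        rw [e1, hy, card_insert_of_notMem huS]
        rw [sum_sub_distrib] at hP
        push_cast
        rw [hsum2] at hrec
        nlinarith
    have hfin := hPhi (G.neighborFinset v ∩ U) subset_rfl
    have hrec := zz_rec (G := G) (θ := θ) (F := F) hv
    have hz : ∀ a, zz G θ W (addF F a (G.neighborFinset v ∩ U))
        = zz G θ W (addF F a (G.neighborFinset v)) := by
      intro a
      apply zz_congr
      intro x hx
      unfold addF
      simp only [mem_inter, hWU hx, and_true]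
    have hy : yy G θ W (G.neighborFinset v ∩ U) F = yy G θ W (G.neighborFinset v) F := by
      apply yy_congr _ (fun _ _ => rfl)
      intro x hx
      simp only [mem_inter, hWU hx, and_true]
    simp only [hz, hy] at hfin
    rw [← hrec] at hfin
    have hDv := hD v hv
    have hDv' : ((G.neighborFinset v ∩ U).card : ℝ) + (F v).card ≤ D := by exact_mod_cast hDv
    have : 0 < ((k : ℝ) + θ - (F v).card - (G.neighborFinset v ∩ U).card) := by
      rw [hq]; linarith
    have := mul_pos this hWpos
    linarith

end Few

end Pool.Agent.Lib.MP_601de6_co
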