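import Pool.Agent.Lib.MP_601de6_co.Few

namespace Pool.Agent.Lib.MP_601de6_co

open Finset Polynomial

section FewFinal

variable {V : Type*} [DecidableEq V] [Fintype V] {G : SimpleGraph V} [DecidableRel G.Adj]
variable {k : ℕ} {θ : ℝ}

lemma cnt_union {C : Type*} [DecidableEq C] [Fintype C] (n : ℕ) :
    ∀ (U₁ U₂ : Finset V) (A : V → Finset C), U₁.card = n → Disjoint U₁ U₂ →
    (∀ u ∈ U₁, ∀ v ∈ U₂, ¬ G.Adj u v) → cnt G (U₁ ∪ U₂) A = cnt G U₁ A * cnt G U₂ A := by
  induction n with
  | zero =>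
    intro U₁ U₂ A h _ _
    rw [card_eq_zero] at h
    subst h
    rw [empty_union, cnt_empty, one_mul]
  | succ n ih =>
    intro U₁ U₂ A h hdis hadj
    obtain ⟨u, hu⟩ : U₁.Nonempty := by
      rw [← card_pos]; omega
    have hu2 : u ∉ U₂ := disjoint_left.mp hdis hu
    rw [cnt_rec A (mem_union_left _ hu), cnt_rec A hu, sum_mul]
    refine sum_congr rfl fun c _ => ?_
    have e1 : (U₁ ∪ U₂).erase u = U₁.erase u ∪ U₂ := by
      ext x
      simp only [mem_erase, mem_union]
      constructor
      · tauto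
      · rintro (⟨h1, h2⟩ | h1)
        · exact ⟨h1, Or.inl h2⟩
        · exact ⟨fun h2 => hu2 (h2 ▸ h1), Or.inr h1⟩
    rw [e1, ih (U₁.erase u) U₂ _ (by rw [card_erase_of_mem hu]; omega)
      (disjoint_of_subset_left (erase_subset _ _) hdis)
      (fun a ha b hb => hadj a (mem_of_mem_erase ha) b hb)]
    congr 1
    apply cnt_congr
    intro v hv
    unfold rem
    rw [if_neg]
    rw [SimpleGraph.mem_neighborFinset]
    exact hadj u hu v hv

lemma zz_union {U₁ U₂ : Finset V} {F : V → Finset (Fin k)} (hdis : Disjoint U₁ U₂)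
    (hadj : ∀ u ∈ U₁, ∀ v ∈ U₂, ¬ G.Adj u v) :
    zz G θ (U₁ ∪ U₂) F = zz G θ U₁ F * zz G θ U₂ F := by
  unfold zz
  rw [← eval_mul]
  congr 1
  apply poly_ext
  intro m _
  rw [eval_mul, Zp_eval, Zp_eval, Zp_eval]
  unfold cY
  rw [cnt_union _ U₁ U₂ _ rfl hdis hadj]
  push_cast
  ring

lemma zz_pos_comp {ι : Type*} {D : ℕ} (hk : k = D + 1) (hθ : -1 < θ) (cp : V → ι)
    (n : ℕ) : ∀ U : Finset V, U.card = n →
    ∀ F : V → Finset (Fin k), Dm G D U F →
    (∀ u ∈ U, ∀ v ∈ U, G.Adj u v → cp u = cp v) →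
    (∀ W ⊆ U, (∀ u ∈ W, ∀ v ∈ W, cp u = cp v) →
      W.card + 3 * (used W F).card ≤ 3 * D + 5) →
    0 < zz G θ U F := by
  classical
  induction n using Nat.strong_induction_on with
  | _ n ih =>
    intro U hU F hD hadj hsize
    rcases U.eq_empty_or_nonempty with rfl | ⟨v, hv⟩
    · rw [zz_empty]; exact one_pos
    set U₁ := U.filter (fun w => cp w = cp v) with hU₁
    set U₂ := U.filter (fun w => ¬ cp w = cp v) with hU₂
    have hun : U = U₁ ∪ U₂ := (filter_union_filter_not_eq _ _).symm
    have h1 : U₁ ⊆ U := filter_subset _ _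
    have h2 : U₂ ⊆ U := filter_subset _ _
    have hv1 : v ∈ U₁ := mem_filter.mpr ⟨hv, rfl⟩
    have hcard : U₁.card + U₂.card = U.card := card_filter_add_card_filter_not _
    have hpos : 0 < U₁.card := card_pos.mpr ⟨v, hv1⟩
    rw [hun, zz_union]
    · apply mul_pos
      · apply zz_pos hk hθ _ U₁ rfl F (hD.mono h1)
        apply hsize U₁ h1
        intro a ha b hb
        rw [(mem_filter.mp ha).2, (mem_filter.mp hb).2]
      · exact ih _ (by omega) U₂ rfl F (hD.mono h2)
          (fun a ha b hb => hadj a (h2 ha) b (h2 hb))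
          (fun W hW => hsize W (hW.trans h2))
    · exact disjoint_filter_filter_not _ _ _
    · intro a ha b hb hab
      have := hadj a (h1 ha) b (h2 hb) hab
      exact (mem_filter.mp hb).2 (this ▸ (mem_filter.mp ha).2)

/-- one vertex `x` of arbitrary degree -/
theorem few_hub {ι : Type*} {D : ℕ} (cp : V → ι) (x : V)
    (hdeg : ∀ v, v ≠ x → G.degree v ≤ D)
    (hadj : ∀ u v, u ≠ x → v ≠ x → G.Adj u v → cp u = cp v)
    (hsize : ∀ W : Finset V, x ∉ W → (∀ u ∈ W, ∀ v ∈ W, cp u = cp v) → W.card ≤ 3 * D + 2)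
    (P : ℝ[X]) (hP : ∀ n : ℕ, P.eval (n : ℝ) = Nat.card (G.Coloring (Fin n))) {q : ℝ}
    (hq : (D : ℝ) < q) : 0 < P.eval q := by
  set a0 : Fin (D + 1) := ⟨0, Nat.succ_pos D⟩
  set F : V → Finset (Fin (D + 1)) := addF (fun _ => ∅) a0 (G.neighborFinset x) with hF
  set Y := Yp G (univ.erase x) ∅ F
  have h1 : P.comp (X + C ((D + 1 : ℕ) : ℝ)) = (X + C ((D + 1 : ℕ) : ℝ)) * Y := by
    apply poly_ext
    intro m hm
    rw [eval_comp, eval_mul, eval_add, eval_X, eval_C, Yp_eval hm]
    have h2 := hP (m + (D + 1))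
    rw [← Nat.cast_add, h2]
    have h3 : Nat.card (G.Coloring (Fin (m + (D + 1))))
        = Nat.card (G.Coloring (Fin (D + 1) ⊕ Fin m)) := by
      apply Nat.card_congr
      exact G.recolorOfEquiv ((finCongr (Nat.add_comm m (D + 1))).trans finSumFinEquiv.symm)
    rw [h3, card_coloring_rec m x a0]
    push_cast
    ring
  have h2 := congrArg (fun p => p.eval (q - (D + 1 : ℕ))) h1
  simp only [eval_comp, eval_mul, eval_add, eval_X, eval_C] at h2
  rw [sub_add_cancel] at h2
  rw [h2]
  have hD0 : (0 : ℝ) ≤ D := Nat.cast_nonneg D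
  refine mul_pos (by linarith) ?_
  have h3 : 0 < zz G (q - (D + 1 : ℕ)) (univ.erase x) F := by
    refine zz_pos_comp (k := D + 1) rfl (by push_cast; linarith) cp _ _ rfl F ?_ ?_ ?_
    · intro v hv
      have hvx : v ≠ x := (mem_erase.mp hv).1
      have h1 := hdeg v hvx
      rw [← SimpleGraph.card_neighborFinset_eq_degree] at h1
      rw [hF]
      unfold addF
      split_ifs with hN
      · have h2 := card_erase_nbr (G := G) (mem_univ x) hN
        rw [inter_univ] at h2
        simp only [insert_empty_eq, card_singleton]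
        omega
      · have h2 := card_erase_le' (G := G) univ x v
        rw [inter_univ] at h2
        simp only [card_empty]
        omega
    · intro u hu v hv
      exact hadj u v (mem_erase.mp hu).1 (mem_erase.mp hv).1
    · intro W hW hWc
      have h1 : x ∉ W := fun h => (mem_erase.mp (hW h)).1 rfl
      have h2 := hsize W h1 hWc
      have h3 : used W F ⊆ {a0} := by
        intro c hc
        unfold used at hc
        rw [mem_biUnion] at hc
        obtain ⟨v, _, hc⟩ := hc
        rw [hF] at hc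
        unfold addF at hc
        split_ifs at hc
        · simpa using hc
        · simp at hc
      have h4 := card_le_card h3
      rw [card_singleton] at h4
      omega
  exact h3

/-- no exceptional vertex -/
theorem few_nohub {ι : Type*} {D : ℕ} (cp : V → ι)
    (hdeg : ∀ v, G.degree v ≤ D)
    (hadj : ∀ u v, G.Adj u v → cp u = cp v)
    (hsize : ∀ W : Finset V, (∀ u ∈ W, ∀ v ∈ W, cp u = cp v) → W.card ≤ 3 * D + 5)
    (P : ℝ[X]) (hP : ∀ n : ℕ, P.eval (n : ℝ) = Nat.card (G.Coloring (Fin n))) {q : ℝ}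
    (hq : (D : ℝ) < q) : 0 < P.eval q := by
  set F : V → Finset (Fin (D + 1)) := (fun _ => ∅) with hF
  have h1 : P.comp (X + C ((D + 1 : ℕ) : ℝ)) = Yp G univ ∅ F := by
    apply poly_ext
    intro m hm
    rw [eval_comp, eval_add, eval_X, eval_C, Yp_eval hm]
    have h2 := hP (m + (D + 1))
    rw [← Nat.cast_add, h2]
    have h3 : Nat.card (G.Coloring (Fin (m + (D + 1))))
        = Nat.card (G.Coloring (Fin (D + 1) ⊕ Fin m)) := by
      apply Nat.card_congr
      exact G.recolorOfEquiv ((finCongr (Nat.add_comm m (D + 1))).trans finSumFinEquiv.symm)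
    rw [h3, ← cnt_univ]
    unfold cY
    rw [hF, LA_univ]
  have h2 := congrArg (fun p => p.eval (q - (D + 1 : ℕ))) h1
  simp only [eval_comp, eval_add, eval_X, eval_C] at h2
  rw [sub_add_cancel] at h2
  rw [h2]
  have h3 : 0 < zz G (q - (D + 1 : ℕ)) univ F := by
    refine zz_pos_comp (k := D + 1) rfl (by push_cast; linarith) cp _ _ rfl F ?_ ?_ ?_
    · intro v _
      have h1 := hdeg v
      rw [← SimpleGraph.card_neighborFinset_eq_degree] at h1
      simp only [hF, inter_univ, card_empty, add_zero]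
      exact h1
    · intro u _ v _
      exact hadj u v
    · intro W _ hWc
      have h2 := hsize W hWc
      have h3 : used W F = ∅ := by
        unfold used
        rw [hF]
        ext c
        simp
      rw [h3, card_empty]
      omega
  exact h3

end FewFinal

end Pool.Agent.Lib.MP_601de6_co
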