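import Pool.Agent.Lib.MP_601de6_co.FewFinal

/-!
# MP_601de6_co: the sharp bound for graphs with at most `3 Δ₂ + 3` vertices

If all vertices of the finite simple graph `G`, except possibly one vertex `x`, have degree at
most `D` and `G` has at most `3 D + 3` vertices, then the chromatic polynomial of `G` is
positive at every real `q > D`.  The same holds for graphs of any size if `G - x` has no
component with more than `3 D + 2` vertices; and if all degrees are at most `D`, it holds when
`G` has no component with more than `3 D + 5` vertices.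
-/

namespace Pool.Agent.Results.MP_601de6_co.FewVertices

open Pool.Agent.Lib.MP_601de6_co Polynomial

/-- There is a real polynomial `P` whose value at every natural number `n` is the number of
proper colourings of `G` with `n` colours, and `P` is positive at all real `q > D` in the three
situations described. The function `cp` labels the classes of a partition of the vertex set (of
`G` minus `x`, or of `G`) with no edges between different classes. -/
theorem result {V : Type*} [Fintype V] (G : SimpleGraph V) [DecidableRel G.Adj] :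
    ∃ P : ℝ[X], (∀ n : ℕ, P.eval (n : ℝ) = Nat.card (G.Coloring (Fin n))) ∧
      (∀ (x : V) (D : ℕ), (∀ v, v ≠ x → G.degree v ≤ D) → Fintype.card V ≤ 3 * D + 3 →
        ∀ q : ℝ, (D : ℝ) < q → 0 < P.eval q) ∧
      (∀ (x : V) (D : ℕ) (cp : V → ℕ), (∀ v, v ≠ x → G.degree v ≤ D) →
        (∀ u v, u ≠ x → v ≠ x → G.Adj u v → cp u = cp v) →
        (∀ i, Nat.card {v // v ≠ x ∧ cp v = i} ≤ 3 * D + 2) →
        ∀ q : ℝ, (D : ℝ) < q → 0 < P.eval q) ∧
      (∀ (D : ℕ) (cp : V → ℕ), (∀ v, G.degree v ≤ D) →
        (∀ u v, G.Adj u v → cp u = cp v) →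
        (∀ i, Nat.card {v // cp v = i} ≤ 3 * D + 5) →
        ∀ q : ℝ, (D : ℝ) < q → 0 < P.eval q) := by
  classical
  obtain ⟨P, hP⟩ := exists_chromatic (G := G)
  have hub : ∀ (x : V) (D : ℕ) (cp : V → ℕ), (∀ v, v ≠ x → G.degree v ≤ D) →
        (∀ u v, u ≠ x → v ≠ x → G.Adj u v → cp u = cp v) →
        (∀ i, Nat.card {v // v ≠ x ∧ cp v = i} ≤ 3 * D + 2) →
        ∀ q : ℝ, (D : ℝ) < q → 0 < P.eval q := by
    intro x D cp hdeg hadj hsize q hq
    refine few_hub (G := G) cp x (fun v hv => by convert hdeg v hv) hadj ?_ P hP hq
    intro W hxW hW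
    rcases W.eq_empty_or_nonempty with rfl | ⟨w, hw⟩
    · simp
    · refine le_trans ?_ (hsize (cp w))
      rw [Nat.card_eq_fintype_card, Fintype.card_subtype]
      apply Finset.card_le_card
      intro v hv
      simp only [Finset.mem_filter, Finset.mem_univ, true_and]
      exact ⟨fun h => hxW (h ▸ hv), hW v hv w hw⟩
  refine ⟨P, hP, ?_, hub, ?_⟩
  · intro x D hdeg hcard q hq
    refine hub x D (fun _ => 0) hdeg (fun _ _ _ _ _ => rfl) ?_ q hq
    intro i
    have h1 : Nat.card {v : V // v ≠ x ∧ (fun _ : V => 0) v = i} ≤ Nat.card {v : V // v ≠ x} := by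
      rw [Nat.card_eq_fintype_card, Nat.card_eq_fintype_card]
      exact Fintype.card_subtype_mono _ _ (fun v hv => hv.1)
    have h2 : Nat.card {v : V // v ≠ x} + 1 = Fintype.card V := by
      rw [Nat.card_eq_fintype_card, Fintype.card_subtype_compl, Fintype.card_subtype_eq]
      have : 0 < Fintype.card V := Fintype.card_pos_iff.mpr ⟨x⟩
      omega
    exact le_trans h1 (by omega)
  · intro D cp hdeg hadj hsize q hq
    refine few_nohub (G := G) cp (fun v => by convert hdeg v) hadj ?_ P hP hq
    intro W hW
    rcases W.eq_empty_or_nonempty with rfl | ⟨w, hw⟩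
    · simp
    · refine le_trans ?_ (hsize (cp w))
      rw [Nat.card_eq_fintype_card, Fintype.card_subtype]
      apply Finset.card_le_card
      intro v hv
      simp only [Finset.mem_filter, Finset.mem_univ, true_and]
      exact hW v hv w hw

end Pool.Agent.Results.MP_601de6_co.FewVertices
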