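import Pool.Agent.Lib.MP_601de6_co.Few

namespace Pool.Agent.Lib.MP_601de6_co

open Finset Polynomial

section LiftW

variable {V : Type*} [DecidableEq V] [Fintype V] {G : SimpleGraph V} [DecidableRel G.Adj]
variable {k : ℕ}

/-- budget of the vertices of `U` in the graph induced on `S` -/
def Bud (G : SimpleGraph V) [DecidableRel G.Adj] (D : ℕ) (U S : Finset V)
    (F : V → Finset (Fin k)) : Prop :=
  ∀ v ∈ U, (G.neighborFinset v ∩ S).card + (F v).card ≤ D

lemma Bud.step {D : ℕ} {U S : Finset V} {F : V → Finset (Fin k)} (h : Bud G D U S F)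
    {w : V} (hw : w ∈ S) (a : Fin k) : Bud G D U (S.erase w) (addF F a (G.neighborFinset w)) := by
  intro v hv
  have h1 := h v hv
  unfold addF
  split_ifs with hN
  · have h2 := card_erase_nbr (G := G) hw hN
    have h3 := card_insert_le a (F v)
    omega
  · have h2 := card_erase_le' (G := G) S w v
    omega

/-- colouring the vertices of `W` first -/
theorem lift_pos {D : ℕ} {θ : ℝ} (hθ : -1 < θ) {U : Finset V}
    (hbase : ∀ F : V → Finset (Fin k), Bud G D U U F → 0 < zz G θ U F) (n : ℕ) :
    ∀ W : Finset V, Disjoint W U → W.card = n → ∀ (J : Finset (Fin k))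
      (F : V → Finset (Fin k)), (∀ v ∈ W ∪ U, F v ⊆ J) → J.card + W.card ≤ k →
      Bud G D U (W ∪ U) F → 0 < zz G θ (W ∪ U) F := by
  induction n with
  | zero =>
    intro W _ hW J F _ _ hB
    rw [card_eq_zero] at hW
    subst hW
    rw [empty_union] at hB ⊢
    exact hbase F hB
  | succ n ih =>
    intro W hdis hW J F hFJ hJ hB
    obtain ⟨w, hw⟩ : W.Nonempty := by rw [← card_pos]; omega
    have hwU : w ∉ U := fun h => (disjoint_left.mp hdis) hw h
    have hwS : w ∈ W ∪ U := mem_union_left _ hw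
    have hc : (W.erase w).card = n := by rw [card_erase_of_mem hw]; omega
    have hS : (W ∪ U).erase w = W.erase w ∪ U := by
      rw [erase_union_distrib, erase_eq_of_notMem hwU]
    have hdis' : Disjoint (W.erase w) U := disjoint_of_subset_left (erase_subset _ _) hdis
    have hpos : ∀ a : Fin k, (insert a J).card ≤ J.card + 1 → 0 < zz G θ (W.erase w ∪ U)
        (addF F a (G.neighborFinset w)) := by
      intro a _
      refine ih (W.erase w) hdis' hc (insert a J) _ ?_ ?_ ?_
      · intro v hv
        have h1 : v ∈ W ∪ U := by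
          rcases mem_union.mp hv with h | h
          · exact mem_union_left _ (mem_of_mem_erase h)
          · exact mem_union_right _ h
        unfold addF
        split_ifs
        · exact insert_subset_insert _ (hFJ v h1)
        · exact (hFJ v h1).trans (subset_insert _ _)
      · have := card_insert_le a J
        omega
      · rw [← hS]
        exact hB.step hwS a
    obtain ⟨a0, ha0⟩ : ∃ a0 : Fin k, a0 ∉ J := by
      by_contra hcon
      push Not at hcon
      have h1 := card_le_card (show (univ : Finset (Fin k)) ⊆ J from fun a _ => hcon a)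
      rw [card_univ, Fintype.card_fin] at h1
      omega
    rw [zz_rec hwS, hS]
    have h1 : yy G θ (W.erase w ∪ U) (G.neighborFinset w) F
        = zz G θ (W.erase w ∪ U) (addF F a0 (G.neighborFinset w)) := by
      apply yy_eq_zz
      intro v hv hav
      have h2 : v ∈ W ∪ U := by
        rcases mem_union.mp hv with h | h
        · exact mem_union_left _ (mem_of_mem_erase h)
        · exact mem_union_right _ h
      exact ha0 (hFJ v h2 hav)
    have ha0w : a0 ∈ univ \ F w := by
      rw [mem_sdiff]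
      exact ⟨mem_univ _, fun h => ha0 (hFJ w hwS h)⟩
    rw [h1, ← add_sum_erase _ _ ha0w]
    have h2 := hpos a0 (card_insert_le _ _)
    have h3 : 0 ≤ ∑ a ∈ (univ \ F w).erase a0, zz G θ (W.erase w ∪ U)
        (addF F a (G.neighborFinset w)) :=
      sum_nonneg fun a _ => (hpos a (card_insert_le _ _)).le
    nlinarith

/-- the chromatic polynomial at `k + θ` -/
lemma chromatic_eval (P : ℝ[X]) (hP : ∀ n : ℕ, P.eval (n : ℝ) = Nat.card (G.Coloring (Fin n)))
    (θ : ℝ) : P.eval ((k : ℝ) + θ) = zz G θ univ (fun _ => (∅ : Finset (Fin k))) := by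
  have h1 : P.comp (X + C (k : ℝ)) = Yp G univ ∅ (fun _ => (∅ : Finset (Fin k))) := by
    apply poly_ext
    intro m hm
    rw [eval_comp, eval_add, eval_X, eval_C, Yp_eval hm]
    have h2 := hP (m + k)
    push_cast at h2
    rw [h2]
    have h3 : Nat.card (G.Coloring (Fin (m + k))) = Nat.card (G.Coloring (Fin k ⊕ Fin m)) := by
      apply Nat.card_congr
      exact G.recolorOfEquiv ((finCongr (Nat.add_comm m k)).trans finSumFinEquiv.symm)
    rw [h3]
    unfold cY
    rw [LA_univ, cnt_univ]
  have h2 := congrArg (fun p => p.eval θ) h1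
  simp only [eval_comp, eval_add, eval_X, eval_C] at h2
  rw [add_comm, h2]
  rfl

/-- few vertices of large degree -/
theorem few_large {d : ℕ} {W : Finset V} (hdeg : ∀ v, v ∉ W → G.degree v ≤ d + 1) (P : ℝ[X])
    (hP : ∀ n : ℕ, P.eval (n : ℝ) = Nat.card (G.Coloring (Fin n))) {q : ℝ}
    (hq : (1 + Real.exp 1) * ((d : ℝ) + 1) ≤ q) (hW : (W.card : ℝ) ≤ q) : 0 < P.eval q := by
  have he := Real.exp_one_gt_d9
  have hd0 : (0 : ℝ) ≤ d := Nat.cast_nonneg d
  have hq0 : 0 ≤ q := by
    refine le_trans ?_ hq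
    positivity
  have h1 : (⌊q⌋₊ : ℝ) ≤ q := Nat.floor_le hq0
  have h2 : q < (⌊q⌋₊ : ℝ) + 1 := Nat.lt_floor_add_one q
  have h3 : Real.exp 1 * ((d : ℝ) + 1) ≤ (⌊q⌋₊ : ℝ) - d := by nlinarith
  obtain ⟨a, b, hN⟩ := exists_num h3
  have h4 : d + 1 < ⌊q⌋₊ := by
    have : ((d : ℝ) + 1) < (⌊q⌋₊ : ℝ) := by nlinarith
    exact_mod_cast this
  have h5 : W.card ≤ ⌊q⌋₊ := Nat.le_floor hW
  have h6 : q = (⌊q⌋₊ : ℝ) + (q - ⌊q⌋₊) := by ring
  rw [h6, chromatic_eval P hP]
  have hS : (univ : Finset V) = W ∪ Wᶜ := (union_compl W).symm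
  rw [hS]
  refine lift_pos (D := d + 1) (by linarith) ?_ W.card W disjoint_compl_right rfl ∅ _
    (fun v _ => Subset.rfl) (by rw [card_empty]; omega) ?_
  · intro F hF
    exact eval_pos hN le_rfl h4 (by linarith) _ _ rfl F (fun v hv => hF v hv)
  · intro v hv
    rw [← hS, inter_univ, SimpleGraph.card_neighborFinset_eq_degree, card_empty, add_zero]
    exact hdeg v (mem_compl.mp hv)

end LiftW

end Pool.Agent.Lib.MP_601de6_co
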