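import Pool.Agent.Lib.MP_601de6_co.FewFinal
import Pool.Agent.Lib.MP_601de6_co.LiftW

namespace Pool.Agent.Lib.MP_601de6_co

open Finset Polynomial

section FewW

variable {V : Type*} [DecidableEq V] [Fintype V] {G : SimpleGraph V} [DecidableRel G.Adj]
variable {k : ℕ}

/-- the vertices of `W` with a neighbour in `K` -/
def att (G : SimpleGraph V) [DecidableRel G.Adj] (W K : Finset V) : Finset V :=
  W.filter fun w => ∃ v ∈ K, G.Adj w v

/-- colouring the vertices of `W` first, with control of the number of colours used on the
parts of `U` -/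
theorem lift_used {D : ℕ} {θ : ℝ} (hθ : -1 < θ) {U : Finset V} {B : Finset V → ℕ}
    (hbase : ∀ F : V → Finset (Fin k), Bud G D U U F → (∀ K ⊆ U, (used K F).card ≤ B K) →
      0 < zz G θ U F) (n : ℕ) :
    ∀ W : Finset V, Disjoint W U → W.card = n → ∀ (J : Finset (Fin k))
      (F : V → Finset (Fin k)), (∀ v ∈ W ∪ U, F v ⊆ J) → J.card + W.card ≤ k →
      Bud G D U (W ∪ U) F → (∀ K ⊆ U, (used K F).card + (att G W K).card ≤ B K) →
      0 < zz G θ (W ∪ U) F := by
  induction n with
  | zero =>
    intro W _ hW J F _ _ hB hK
    rw [card_eq_zero] at hW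
    subst hW
    rw [empty_union] at hB ⊢
    refine hbase F hB fun K hKU => ?_
    have := hK K hKU
    omega
  | succ n ih =>
    intro W hdis hW J F hFJ hJ hB hK
    obtain ⟨w, hw⟩ : W.Nonempty := by rw [← card_pos]; omega
    have hwU : w ∉ U := fun h => (disjoint_left.mp hdis) hw h
    have hwS : w ∈ W ∪ U := mem_union_left _ hw
    have hc : (W.erase w).card = n := by rw [card_erase_of_mem hw]; omega
    have hS : (W ∪ U).erase w = W.erase w ∪ U := by
      rw [erase_union_distrib, erase_eq_of_notMem hwU]
    have hdis' : Disjoint (W.erase w) U := disjoint_of_subset_left (erase_subset _ _) hdis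
    have hpos : ∀ a : Fin k, (insert a J).card ≤ J.card + 1 → 0 < zz G θ (W.erase w ∪ U)
        (addF F a (G.neighborFinset w)) := by
      intro a _
      refine ih (W.erase w) hdis' hc (insert a J) _ ?_ ?_ ?_ ?_
      · intro v hv
        have h1 : v ∈ W ∪ U := by
          rcases mem_union.mp hv with h | h
          · exact mem_union_left _ (mem_of_mem_erase h)
          · exact mem_union_right _ h
        unfold addF
        split_ifs
        · exact insert_subset_insert _ (hFJ v h1)
        · exact (hFJ v h1).trans (subset_insert _ _)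
      · have := card_insert_le a J
        omega
      · rw [← hS]
        exact hB.step hwS a
      · intro K hKU
        refine le_trans ?_ (hK K hKU)
        by_cases hadj : ∃ v ∈ K, G.Adj w v
        · have h1 : (used K (addF F a (G.neighborFinset w))).card ≤ (used K F).card + 1 := by
            refine le_trans (card_le_card (used_addF (Subset.refl K) F a _)) ?_
            exact card_insert_le _ _
          have h2 : (att G (W.erase w) K).card + 1 ≤ (att G W K).card := by
            have hmem : w ∈ att G W K := by
              unfold att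
              exact mem_filter.mpr ⟨hw, hadj⟩
            have h3 : att G (W.erase w) K ⊆ (att G W K).erase w := by
              intro u hu
              unfold att at hu ⊢
              rw [mem_filter] at hu
              rw [mem_erase, mem_filter]
              exact ⟨(mem_erase.mp hu.1).1, (mem_erase.mp hu.1).2, hu.2⟩
            have h4 := card_le_card h3
            rw [card_erase_of_mem hmem] at h4
            have h5 : 0 < (att G W K).card := card_pos.mpr ⟨w, hmem⟩
            omega
          omega
        · have h1 : used K (addF F a (G.neighborFinset w)) = used K F := by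
            unfold used
            refine biUnion_congr rfl fun v hv => ?_
            unfold addF
            rw [if_neg]
            rw [SimpleGraph.mem_neighborFinset]
            exact fun h => hadj ⟨v, hv, h⟩
          have h2 : (att G (W.erase w) K).card ≤ (att G W K).card := by
            apply card_le_card
            intro u hu
            unfold att at hu ⊢
            rw [mem_filter] at hu ⊢
            exact ⟨(mem_erase.mp hu.1).2, hu.2⟩
          rw [h1]
          omega
    obtain ⟨a0, ha0⟩ : ∃ a0 : Fin k, a0 ∉ J := by
      by_contra hcon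
      push Not at hcon
      have h1 := card_le_card (show (univ : Finset (Fin k)) ⊆ J from fun a _ => hcon a)
      rw [card_univ, Fintype.card_fin] at h1
      omega
    rw [zz_rec hwS, hS]
    have h1 : yy G θ (W.erase w ∪ U) (G.neighborFinset w) F
        = zz G θ (W.erase w ∪ U) (addF F a0 (G.neighborFinset w)) := by
      apply yy_eq_zz
      intro v hv hav
      have h2 : v ∈ W ∪ U := by
        rcases mem_union.mp hv with h | h
        · exact mem_union_left _ (mem_of_mem_erase h)
        · exact mem_union_right _ h
      exact ha0 (hFJ v h2 hav)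
    have ha0w : a0 ∈ univ \ F w := by
      rw [mem_sdiff]
      exact ⟨mem_univ _, fun h => ha0 (hFJ w hwS h)⟩
    rw [h1, ← add_sum_erase _ _ ha0w]
    have h2 := hpos a0 (card_insert_le _ _)
    have h3 : 0 ≤ ∑ a ∈ (univ \ F w).erase a0, zz G θ (W.erase w ∪ U)
        (addF F a (G.neighborFinset w)) :=
      sum_nonneg fun a _ => (hpos a (card_insert_le _ _)).le
    nlinarith

/-- small pieces after deleting `W` -/
theorem small_pieces {ι : Type*} {D : ℕ} {W : Finset V} (hW : W.card ≤ D + 1)
    (hdeg : ∀ v, v ∉ W → G.degree v ≤ D) (cp : V → ι)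
    (hadj : ∀ u v, u ∉ W → v ∉ W → G.Adj u v → cp u = cp v)
    (hsize : ∀ K : Finset V, (∀ v ∈ K, v ∉ W) → (∀ u ∈ K, ∀ v ∈ K, cp u = cp v) →
      K.card + 3 * (att G W K).card ≤ 3 * D + 5)
    (P : ℝ[X]) (hP : ∀ n : ℕ, P.eval (n : ℝ) = Nat.card (G.Coloring (Fin n))) {q : ℝ}
    (hq : (D : ℝ) < q) : 0 < P.eval q := by
  have h6 : q = ((D + 1 : ℕ) : ℝ) + (q - (D + 1 : ℕ)) := by ring
  rw [h6, chromatic_eval (k := D + 1) P hP]
  have hS : (univ : Finset V) = W ∪ Wᶜ := (union_compl W).symm
  have hθ : -1 < q - ((D + 1 : ℕ) : ℝ) := by push_cast; linarith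
  rw [hS]
  refine lift_used (D := D) (B := fun K => (att G W K).card) hθ ?_ W.card W
    disjoint_compl_right rfl ∅ _ (fun v _ => Subset.rfl) (by rw [card_empty]; omega) ?_ ?_
  · intro F hF hused
    refine zz_pos_comp (k := D + 1) rfl hθ cp _ _ rfl F hF ?_ ?_
    · intro u hu v hv
      exact hadj u v (mem_compl.mp hu) (mem_compl.mp hv)
    · intro K hK hKc
      have h1 := hused K hK
      have h2 := hsize K (fun v hv => mem_compl.mp (hK hv)) hKc
      omega
  · intro v hv
    rw [← hS, inter_univ, SimpleGraph.card_neighborFinset_eq_degree, card_empty, add_zero]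
    exact hdeg v (mem_compl.mp hv)
  · intro K _
    have h1 : used K (fun _ => (∅ : Finset (Fin (D + 1)))) = ∅ := by
      unfold used
      ext c
      simp
    rw [h1, card_empty]
    omega

/-- a graph with independence number at most three has few vertices -/
theorem card_le_of_indep {D : ℕ} {x : V} (hdeg : ∀ v, v ≠ x → G.degree v ≤ D)
    (hind : G.indepNum ≤ 3) : Fintype.card V ≤ 3 * D + 3 := by
  classical
  set T : Finset (Finset V) := (univ.erase x).powerset.filter fun S => G.IsIndepSet (S : Set V)
    with hT
  have hTne : T.Nonempty := ⟨∅, by simp [hT]⟩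
  obtain ⟨S, hS, hmax⟩ := exists_max_image T card hTne
  rw [hT, mem_filter, mem_powerset] at hS
  obtain ⟨hSx, hSi⟩ := hS
  have hcov : ∀ v, v ≠ x → ∃ s ∈ S, v ∈ insert s (G.neighborFinset s) := by
    intro v hv
    by_contra hcon
    push Not at hcon
    have hvS : v ∉ S := fun h => hcon v h (mem_insert_self _ _)
    have hmem : insert v S ∈ T := by
      rw [hT, mem_filter, mem_powerset]
      refine ⟨?_, ?_⟩
      · intro y hy
        rcases mem_insert.mp hy with rfl | hy
        · exact mem_erase.mpr ⟨hv, mem_univ _⟩
        · exact hSx hy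
      · rw [coe_insert, SimpleGraph.isIndepSet_iff, Set.pairwise_insert]
        refine ⟨hSi, fun s hs _ => ⟨fun h => ?_, fun h => ?_⟩⟩
        · exact hcon s hs (mem_insert_of_mem
            ((SimpleGraph.mem_neighborFinset _ _ _).mpr h.symm))
        · exact hcon s hs (mem_insert_of_mem
            ((SimpleGraph.mem_neighborFinset _ _ _).mpr h))
    have h1 := hmax _ hmem
    rw [card_insert_of_notMem hvS] at h1
    omega
  have hb : (S.biUnion fun s => insert s (G.neighborFinset s)).card ≤ S.card * (D + 1) := by
    refine card_biUnion_le_card_mul _ _ _ fun s hs => ?_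
    have h1 := card_insert_le s (G.neighborFinset s)
    have h2 := hdeg s (mem_erase.mp (hSx hs)).1
    rw [← SimpleGraph.card_neighborFinset_eq_degree] at h2
    omega
  have hS3 : S.card ≤ 3 := le_trans (SimpleGraph.IsIndepSet.card_le_indepNum hSi) hind
  by_cases hx : ∃ s ∈ S, G.Adj x s
  · have hsub : (univ : Finset V) ⊆ S.biUnion fun s => insert s (G.neighborFinset s) := by
      intro v _
      rw [mem_biUnion]
      by_cases hv : v = x
      · subst hv
        obtain ⟨s, hs, h⟩ := hx
        exact ⟨s, hs, mem_insert_of_mem ((SimpleGraph.mem_neighborFinset _ _ _).mpr h.symm)⟩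
      · exact hcov v hv
    have h1 := card_le_card hsub
    rw [card_univ] at h1
    have h2 : S.card * (D + 1) ≤ 3 * (D + 1) := Nat.mul_le_mul_right _ hS3
    omega
  · push Not at hx
    have hxS : x ∉ S := fun h => (mem_erase.mp (hSx h)).1 rfl
    have h0 : G.IsIndepSet ((insert x S : Finset V) : Set V) := by
      rw [coe_insert, SimpleGraph.isIndepSet_iff, Set.pairwise_insert]
      exact ⟨hSi, fun s hs _ => ⟨hx s hs, fun h => hx s hs h.symm⟩⟩
    have h2 := le_trans (SimpleGraph.IsIndepSet.card_le_indepNum h0) hind
    rw [card_insert_of_notMem hxS] at h2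
    have hsub : (univ : Finset V).erase x ⊆ S.biUnion fun s => insert s (G.neighborFinset s) := by
      intro v hv
      rw [mem_biUnion]
      exact hcov v (mem_erase.mp hv).1
    have h1 := card_le_card hsub
    rw [card_erase_of_mem (mem_univ x), card_univ] at h1
    have h3 : S.card * (D + 1) ≤ 2 * (D + 1) := Nat.mul_le_mul_right _ (by omega)
    omega

end FewW

end Pool.Agent.Lib.MP_601de6_co
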