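import Pool.Agent.Lib.MP_601de6_co.Bound

namespace Pool.Agent.Lib.MP_601de6_co

open Finset Polynomial

lemma pow_le_exp (D : ℕ) (hD : 1 ≤ D) : (1 + 1 / (D : ℝ)) ^ D ≤ Real.exp 1 := by
  have hD0 : (0 : ℝ) < D := by exact_mod_cast hD
  have h1 : 1 + 1 / (D : ℝ) ≤ Real.exp (1 / D) := by
    have := Real.add_one_le_exp (1 / (D : ℝ)); linarith
  calc (1 + 1 / (D : ℝ)) ^ D ≤ (Real.exp (1 / D)) ^ D :=
        pow_le_pow_left₀ (by positivity) h1 D
    _ = Real.exp 1 := by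
        rw [← Real.exp_nat_mul]
        congr 1
        field_simp

lemma exists_b {β : ℝ} (d : ℕ) (hβ : 1 ≤ β) : ∃ b : ℝ, 0 ≤ b ∧ b ≤ 1 ∧ 1 - b ^ d / β = b := by
  have hβ0 : 0 < β := by linarith
  have hcont : ContinuousOn (fun b : ℝ => 1 - b ^ d / β - b) (Set.Icc 0 1) := by fun_prop
  have h0 : 0 ≤ 1 - (0 : ℝ) ^ d / β - 0 := by
    have h1 : (0 : ℝ) ^ d ≤ 1 := by
      rcases Nat.eq_zero_or_pos d with rfl | hd
      · simp
      · rw [zero_pow hd.ne']; norm_num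
    have h2 : (0 : ℝ) ^ d / β ≤ 1 := by
      rw [div_le_one hβ0]; linarith
    linarith
  have h1 : 1 - (1 : ℝ) ^ d / β - 1 ≤ 0 := by
    have : 0 ≤ (1 : ℝ) ^ d / β := by positivity
    linarith
  obtain ⟨b, hb, hb'⟩ := intermediate_value_Icc' (zero_le_one) hcont (⟨h1, h0⟩ : (0 : ℝ) ∈ Set.Icc _ _)
  refine ⟨b, hb.1, hb.2, ?_⟩
  simp only at hb'
  linarith

lemma exists_num {d : ℕ} {β : ℝ} (hβ : Real.exp 1 * ((d : ℝ) + 1) ≤ β) :
    ∃ a b, Num a b β d := by
  have he1 := Real.exp_one_gt_d9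
  have he2 := Real.exp_one_lt_d9
  have hd0 : (0 : ℝ) ≤ d := Nat.cast_nonneg d
  have hβ1 : 1 ≤ β := by nlinarith
  have hβ0 : 0 < β := by linarith
  obtain ⟨b, hb0, hb1, hb⟩ := exists_b d hβ1
  have hDpos : (0 : ℝ) < (d : ℝ) + 1 := by linarith
  have hexp : (1 + 1 / ((d : ℝ) + 1)) ^ (d + 1) ≤ Real.exp 1 := by
    have := pow_le_exp (d + 1) (by omega)
    push_cast at this
    exact this
  refine ⟨1 + 1 / ((d : ℝ) + 1), b, hβ0, ?_, hb, hb0, ?_, ?_⟩
  · have h1 : (1 + 1 / ((d : ℝ) + 1)) ^ d ≤ (1 + 1 / ((d : ℝ) + 1)) ^ (d + 1) :=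
      pow_le_pow_right₀ (by have : 0 ≤ 1 / ((d : ℝ) + 1) := by positivity
                            linarith) (Nat.le_succ d)
    have h2 : (1 + 1 / ((d : ℝ) + 1)) ^ d / β ≤ 1 / ((d : ℝ) + 1) := by
      rw [div_le_div_iff₀ hβ0 hDpos]
      nlinarith
    linarith
  · -- bound for `b`
    have hbd : b ^ d ≤ 1 := pow_le_one₀ hb0 hb1
    have hb2 : β * (1 - b) = b ^ d := by
      have : b ^ d / β = 1 - b := by linarith
      rw [div_eq_iff hβ0.ne'] at this
      linarith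
    have hb3 : Real.exp 1 * ((d : ℝ) + 1) * (1 - b) ≤ 1 := by
      have : Real.exp 1 * ((d : ℝ) + 1) * (1 - b) ≤ β * (1 - b) :=
        mul_le_mul_of_nonneg_right hβ (by linarith)
      linarith
    have hbern : 1 - ((d : ℝ) + 1) * (1 - b) ≤ b ^ (d + 1) := by
      have := one_add_mul_le_pow (a := b - 1) (by linarith) (d + 1)
      push_cast at this
      have h : (1 + (b - 1)) = b := by ring
      rw [h] at this
      linarith
    set s := b ^ (d + 1) with hs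
    have hs0 : 0 ≤ s := pow_nonneg hb0 _
    have hs1 : s = b * (β * (1 - b)) := by rw [hb2, hs, pow_succ]; ring
    -- `(d+1)(1-b) e b ≤ s`
    have hs2 : Real.exp 1 * ((d : ℝ) + 1) * (1 - b) * b ≤ s := by
      rw [hs1]
      have : Real.exp 1 * ((d : ℝ) + 1) * (1 - b) ≤ β * (1 - b) :=
        mul_le_mul_of_nonneg_right hβ (by linarith)
      nlinarith
    have hs3 : Real.exp 1 * b * (1 - s) ≤ s := by
      have : Real.exp 1 * b * (1 - s) ≤ Real.exp 1 * b * (((d : ℝ) + 1) * (1 - b)) :=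
        mul_le_mul_of_nonneg_left (by linarith) (by positivity)
      linarith
    have hs4 : s ≤ 1 := pow_le_one₀ hb0 hb1
    rcases Nat.lt_or_ge d 5 with hd | hd
    · -- small degree
      have hb4 : Real.exp 1 * b ≥ Real.exp 1 - 1 := by nlinarith
      have hs5 : (Real.exp 1 - 1) * (1 - s) ≤ s := by nlinarith
      have hs6 : (1.7182 : ℝ) * (1 - s) ≤ s := by nlinarith
      have hs7 : (0.6 : ℝ) ≤ s := by nlinarith
      interval_cases d <;> norm_num <;> linarith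
    · have hd5 : (5 : ℝ) ≤ d := by exact_mod_cast hd
      have hb4 : Real.exp 1 * b ≥ Real.exp 1 - 1 / 6 := by nlinarith
      have hs5 : (Real.exp 1 - 1 / 6) * (1 - s) ≤ s := by nlinarith
      have hs6 : (2.5516 : ℝ) * (1 - s) ≤ s := by nlinarith
      linarith
  · have : 0 ≤ 1 / ((d : ℝ) + 1) := by positivity
    linarith

end Pool.Agent.Lib.MP_601de6_co
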