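import Pool.Agent.Lib.MP_601de6_co.Main
import Pool.Agent.Lib.MP_601de6_co.Numeric

namespace Pool.Agent.Lib.MP_601de6_co

open Finset Polynomial

section Final

variable {V : Type*} [DecidableEq V] [Fintype V] {G : SimpleGraph V} [DecidableRel G.Adj]

lemma cnt_univ {C : Type*} [DecidableEq C] [Fintype C] :
    cnt G univ (fun _ => (univ : Finset C)) = Nat.card (G.Coloring C) := by
  classical
  rw [show cnt G univ (fun _ => (univ : Finset C))
    = (univ.filter (fun φ : V → Option C => Good G univ (fun _ => (univ : Finset C)) φ)).card from by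
    unfold cnt; congr]
  rw [← Fintype.card_coe, ← Nat.card_eq_fintype_card]
  symm
  refine Nat.card_eq_of_bijective (fun c : G.Coloring C => ⟨fun v => some (c v), ?_⟩) ⟨?_, ?_⟩
  · simp only [mem_filter, mem_univ, true_and]
    refine ⟨fun v hv => absurd (mem_univ v) hv, fun v _ => ⟨c v, mem_univ _, rfl⟩, ?_⟩
    intro u v huv d hu hv
    injection hu with hu
    injection hv with hv
    exact c.valid huv (hu.trans hv.symm)
  · intro c c' h
    have h1 := Subtype.ext_iff.mp h
    ext v
    have h2 := congrFun h1 v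
    injection h2
  · rintro ⟨φ, hφ⟩
    simp only [mem_filter, mem_univ, true_and] at hφ
    obtain ⟨h1, h2, h3⟩ := hφ
    have h4 : ∀ v, ∃ c, φ v = some c := by
      intro v
      obtain ⟨c, -, hc⟩ := h2 v (mem_univ v)
      exact ⟨c, hc⟩
    choose c hc using h4
    refine ⟨SimpleGraph.Coloring.mk c ?_, ?_⟩
    · intro u v huv he
      exact h3 u v huv (c u) (hc u) (by rw [hc v, he])
    · apply Subtype.ext
      funext v
      exact (hc v).symm

lemma LA_univ {k : ℕ} (m : ℕ) :
    LA m (fun _ : V => (∅ : Finset (Fin k))) ∅ = fun _ => (univ : Finset (Fin k ⊕ Fin m)) := by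
  funext v
  unfold LA
  simp

lemma card_coloring_rec {k : ℕ} (m : ℕ) (x : V) (a : Fin k) :
    Nat.card (G.Coloring (Fin k ⊕ Fin m))
      = (k + m) * cY G m (univ.erase x) ∅ (addF (fun _ => ∅) a (G.neighborFinset x)) := by
  rw [← cnt_univ, cnt_rec _ (mem_univ x)]
  unfold cY
  rw [← rem_inl, LA_univ]
  have key : ∀ c ∈ (univ : Finset (Fin k ⊕ Fin m)),
      cnt G (univ.erase x) (rem (fun _ => (univ : Finset (Fin k ⊕ Fin m))) c (G.neighborFinset x))
        = cnt G (univ.erase x) (rem (fun _ => (univ : Finset (Fin k ⊕ Fin m))) (Sum.inl a)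
          (G.neighborFinset x)) := by
    intro c _
    rw [← cnt_perm (rem (fun _ => (univ : Finset (Fin k ⊕ Fin m))) c (G.neighborFinset x))
      (Equiv.swap c (Sum.inl a))]
    apply cnt_congr
    intro v _
    unfold rem
    by_cases hv : v ∈ G.neighborFinset x
    · simp only [if_pos hv]
      rw [image_erase (Equiv.injective _)]
      simp
    · simp only [if_neg hv]
      simp
  rw [sum_congr rfl key, sum_const, card_univ, smul_eq_mul]
  simp

lemma dom_start {d k : ℕ} {x : V} (hdeg : ∀ v, v ≠ x → G.degree v ≤ d + 1) (a : Fin k) :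
    Dom G d (univ.erase x) (addF (fun _ => ∅) a (G.neighborFinset x)) := by
  intro v hv
  have hvx : v ≠ x := (mem_erase.mp hv).1
  have h1 := hdeg v hvx
  rw [← SimpleGraph.card_neighborFinset_eq_degree] at h1
  unfold addF
  split_ifs with hN
  · have h2 := card_erase_nbr (G := G) (mem_univ x) hN
    rw [inter_univ] at h2
    simp only [insert_empty_eq, card_singleton]
    omega
  · have h2 := card_erase_le' (G := G) univ x v
    rw [inter_univ] at h2
    simp only [card_empty]
    omega

theorem chromatic_pos {d : ℕ} {x : V} (hdeg : ∀ v, v ≠ x → G.degree v ≤ d + 1) (P : ℝ[X])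
    (hP : ∀ n : ℕ, 0 < n → P.eval (n : ℝ) = Nat.card (G.Coloring (Fin n)))
    {a b β : ℝ} (hN : Num a b β d) {k : ℕ} (hβ : β ≤ (k : ℝ) - d) (hk : d + 1 < k) {q : ℝ}
    (hq : (k : ℝ) ≤ q) : 0 < P.eval q := by
  have hk0 : 0 < k := by omega
  set a0 : Fin k := ⟨0, hk0⟩
  set Y := Yp G (univ.erase x) ∅ (addF (fun _ => ∅) a0 (G.neighborFinset x))
  have h1 : P.comp (X + C (k : ℝ)) = (X + C (k : ℝ)) * Y := by
    apply poly_ext
    intro m hm
    rw [eval_comp, eval_mul, eval_add, eval_X, eval_C, Yp_eval hm]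
    have h2 := hP (m + k) (by omega)
    push_cast at h2
    rw [h2]
    have h3 : Nat.card (G.Coloring (Fin (m + k))) = Nat.card (G.Coloring (Fin k ⊕ Fin m)) := by
      apply Nat.card_congr
      exact G.recolorOfEquiv ((finCongr (Nat.add_comm m k)).trans finSumFinEquiv.symm)
    rw [h3, card_coloring_rec m x a0]
    push_cast
    ring
  have h2 := congrArg (fun p => p.eval (q - k)) h1
  simp only [eval_comp, eval_mul, eval_add, eval_X, eval_C] at h2
  rw [sub_add_cancel] at h2
  rw [h2]
  have hkq : (0 : ℝ) < k := by exact_mod_cast hk0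
  exact mul_pos (by linarith) (eval_pos hN hβ hk (by linarith) _ _ rfl _ (dom_start hdeg a0))

/-- existence of the chromatic polynomial -/
theorem exists_chromatic : ∃ P : ℝ[X], ∀ n : ℕ, P.eval (n : ℝ) = Nat.card (G.Coloring (Fin n)) := by
  obtain ⟨p, hp⟩ := (exists_poly (G := G) (k := 0) (univ : Finset V).card univ rfl
    (fun _ => ∅)).1
  refine ⟨p, fun n => ?_⟩
  rw [hp n]
  unfold cY
  rw [LA_univ, cnt_univ]
  congr 1
  apply Nat.card_congr
  exact G.recolorOfEquiv (Equiv.emptySum (Fin 0) (Fin n))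

end Final

end Pool.Agent.Lib.MP_601de6_co
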