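import Pool.Agent.Lib.MP_601de6_co.Bound

namespace Pool.Agent.Lib.MP_601de6_co

open Finset Polynomial

section Main

variable {V : Type*} [DecidableEq V] [Fintype V] {G : SimpleGraph V} [DecidableRel G.Adj]
variable {k : ℕ}

lemma stepB {a b β : ℝ} {d : ℕ} (hN : Num a b β d) {U : Finset V} {F : V → Finset (Fin k)}
    (hD : Dom G d U F) {u : V} (hu : u ∈ U)
    (ihA : ∀ U' : Finset V, U'.card < U.card → ∀ F : V → Finset (Fin k), Dom G d U' F →
      Le 0 (Yp G U' ∅ F))
    (ihC : ∀ U' : Finset V, U'.card < U.card → ∀ F : V → Finset (Fin k), Dom G d U' F →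
      ClC G a b d U' F) :
    Le (C ((k : ℝ) - (F u).card - (G.neighborFinset u ∩ U).card) * Yp G (U.erase u) ∅ F)
      (Yp G U ∅ F) := by
  have hlt : (U.erase u).card < U.card := card_erase_lt_of_mem hu
  have hD' := hD.erase u
  have hZ' := ihA _ hlt F hD'
  have hY := Ypos hN hD hu hZ' (ihC _ hlt F hD')
  set U' := U.erase u with hU'
  set X := G.neighborFinset u ∩ U' with hX
  -- the conditions on the neighbours of `u`
  have hXc : ∀ w ∈ X, w ∈ U' → (G.neighborFinset w ∩ U').card + (F w).card ≤ d := by
    intro w hw hwU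
    have h1 := card_erase_nbr (G := G) hu (mem_inter.mp hw).1
    have h2 := hD w (mem_of_mem_erase hwU)
    rw [← hU'] at h1
    omega
  have hub : ∀ c : Fin k, Le (Yp G U' ∅ F - ∑ w ∈ X.filter (fun w => c ∉ F w),
      Yp G (U'.erase w) ∅ (addF F c (G.neighborFinset w)))
      (Yp G U' ∅ (addF F c (G.neighborFinset u))) := by
    intro c
    have h1 := union_bound (d := d) (fun U'' hU'' => ihA U'' (hU''.trans hlt)) hD' c X
      inter_subset_right (fun w hw hwU _ => hXc w hw hwU)
    have h2 : Yp G U' ∅ (addF F c X) = Yp G U' ∅ (addF F c (G.neighborFinset u)) := by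
      apply Yp_congr (fun v _ => Iff.rfl)
      intro v hv
      unfold addF
      have : (v ∈ X) = (v ∈ G.neighborFinset u) := by rw [hX]; simp only [mem_inter, hv, and_true]
      simp only [this]
    rw [h2] at h1
    exact h1
  -- positivity of the terms
  have hT : ∀ w ∈ X, ∀ c : Fin k,
      Le 0 (Yp G (U'.erase w) ∅ (addF F c (G.neighborFinset w))) := by
    intro w hw c
    have hwU : w ∈ U' := (mem_inter.mp hw).2
    exact ihA _ ((card_erase_lt_of_mem hwU).trans hlt) _ (hD'.erase_add hwU c)
  have hTs : ∀ w ∈ X, ∀ i, (∑ c ∈ univ \ F w,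
      (Yp G (U'.erase w) ∅ (addF F c (G.neighborFinset w))).coeff i) ≤ (Yp G U' ∅ F).coeff i := by
    intro w hw i
    have hwU : w ∈ U' := (mem_inter.mp hw).2
    have hlt2 : (U'.erase w).card < U.card := (card_erase_lt_of_mem hwU).trans hlt
    have h1 := Ypos hN hD' hwU (ihA _ hlt2 F (hD'.erase w)) (ihC _ hlt2 F (hD'.erase w))
    have h2 := h1.xmul i
    have h3 := congrArg (fun p => p.coeff i) (Yp_rec (G := G) (F := F) hwU)
    simp only [coeff_add, finset_sum_coeff] at h3
    rw [coeff_zero] at h2
    linarith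
  intro i
  have h3 := congrArg (fun p => p.coeff i) (Yp_rec (G := G) (F := F) hu)
  simp only [coeff_add, finset_sum_coeff] at h3
  rw [← hU'] at h3
  have h4 := hY.xmul i
  rw [coeff_zero] at h4
  have h5 : ∑ c ∈ univ \ F u, ((Yp G U' ∅ F).coeff i - ∑ w ∈ X.filter (fun w => c ∉ F w),
      (Yp G (U'.erase w) ∅ (addF F c (G.neighborFinset w))).coeff i)
      ≤ ∑ c ∈ univ \ F u, (Yp G U' ∅ (addF F c (G.neighborFinset u))).coeff i := by
    refine sum_le_sum fun c _ => ?_
    have := hub c i
    rw [coeff_sub, finset_sum_coeff] at this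
    exact this
  rw [sum_sub_distrib, sum_const, nsmul_eq_mul] at h5
  have h6 : ∑ c ∈ univ \ F u, ∑ w ∈ X.filter (fun w => c ∉ F w),
      (Yp G (U'.erase w) ∅ (addF F c (G.neighborFinset w))).coeff i
      ≤ (X.card : ℝ) * (Yp G U' ∅ F).coeff i := by
    calc ∑ c ∈ univ \ F u, ∑ w ∈ X.filter (fun w => c ∉ F w),
          (Yp G (U'.erase w) ∅ (addF F c (G.neighborFinset w))).coeff i
        = ∑ c ∈ univ \ F u, ∑ w ∈ X, if c ∉ F w then
          (Yp G (U'.erase w) ∅ (addF F c (G.neighborFinset w))).coeff i else 0 := by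
          refine sum_congr rfl fun c _ => ?_
          rw [sum_filter]
      _ = ∑ w ∈ X, ∑ c ∈ univ \ F u, if c ∉ F w then
          (Yp G (U'.erase w) ∅ (addF F c (G.neighborFinset w))).coeff i else 0 := sum_comm
      _ ≤ ∑ w ∈ X, (Yp G U' ∅ F).coeff i := by
          refine sum_le_sum fun w hw => ?_
          refine le_trans ?_ (hTs w hw i)
          rw [← sum_filter]
          refine sum_le_sum_of_subset_of_nonneg ?_ ?_
          · intro c hc
            rw [mem_filter] at hc
            exact mem_sdiff.mpr ⟨mem_univ _, hc.2⟩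
          · intro c _ _
            have := hT w hw c i
            rw [coeff_zero] at this
            exact this
      _ = (X.card : ℝ) * (Yp G U' ∅ F).coeff i := by rw [sum_const, nsmul_eq_mul]
  have h7 : (X.card : ℝ) = ((G.neighborFinset u ∩ U).card : ℝ) := by
    rw [hX, hU', inter_erase_self]
  have h8 : ((univ \ F u).card : ℝ) = (k : ℝ) - (F u).card := by
    rw [card_sdiff_of_subset (subset_univ _), card_univ, Fintype.card_fin, Nat.cast_sub]
    have := card_le_univ (F u)
    rwa [Fintype.card_fin] at this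
  rw [coeff_C_mul]
  rw [h7] at h6
  rw [h8] at h5
  nlinarith [h3, h4, h5, h6]

lemma stepA {d : ℕ} (hk : d + 1 ≤ k) {U : Finset V} {F : V → Finset (Fin k)}
    (hD : Dom G d U F)
    (ihA : ∀ U' : Finset V, U'.card < U.card → ∀ F : V → Finset (Fin k), Dom G d U' F →
      Le 0 (Yp G U' ∅ F))
    (hB : ∀ u ∈ U, Le (C ((k : ℝ) - (F u).card - (G.neighborFinset u ∩ U).card)
      * Yp G (U.erase u) ∅ F) (Yp G U ∅ F)) :
    Le 0 (Yp G U ∅ F) := by
  rcases U.eq_empty_or_nonempty with rfl | ⟨u, hu⟩
  · rw [Yp_empty]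
    intro i
    rw [coeff_zero, coeff_one]
    split_ifs <;> norm_num
  · intro i
    have h1 := hB u hu i
    have h2 := ihA _ (card_erase_lt_of_mem hu) F (hD.erase u) i
    rw [coeff_C_mul] at h1
    rw [coeff_zero] at h2 ⊢
    refine le_trans (mul_nonneg ?_ h2) h1
    have h3 := hD u hu
    have h4 : (((G.neighborFinset u ∩ U).card + (F u).card : ℕ) : ℝ) ≤ ((k : ℕ) : ℝ) := by
      exact_mod_cast h3.trans hk
    push_cast at h4
    linarith

lemma stepC {a b β : ℝ} {d : ℕ} (hN : Num a b β d) (hβ : β ≤ (k : ℝ) - d)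
    {U : Finset V} {F : V → Finset (Fin k)} (hD : Dom G d U F)
    (hA : Le 0 (Yp G U ∅ F))
    (ihA : ∀ U' : Finset V, U'.card < U.card → ∀ F : V → Finset (Fin k), Dom G d U' F →
      Le 0 (Yp G U' ∅ F))
    (hB : ∀ u ∈ U, Le (C ((k : ℝ) - (F u).card - (G.neighborFinset u ∩ U).card)
      * Yp G (U.erase u) ∅ F) (Yp G U ∅ F))
    (ihC : ∀ U' : Finset V, U'.card < U.card → ∀ F : V → Finset (Fin k), Dom G d U' F →
      ClC G a b d U' F) :
    ClC G a b d U F := by
  intro X hX
  induction X using Finset.induction_on with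
  | empty =>
    refine ⟨Yp G U ∅ F, 0, by simp, fun i => le_refl _, ?_, fun i => le_refl _, ?_⟩
    · intro i; simp [oo]
    · intro i; simp [ee]
  | insert u X huX ih =>
    obtain ⟨P, Q, h1, h2, h3, h4, h5⟩ := ih (fun z hz => hX z (mem_insert_of_mem hz))
    rw [card_insert_of_notMem huX]
    by_cases hu : u ∈ U
    · have hlt : (U.erase u).card < U.card := card_erase_lt_of_mem hu
      have hD' := hD.erase u
      have hdu := hX u (mem_insert_self _ _) hu
      obtain ⟨P', Q', g1, g2, g3, g4, g5⟩ := ihC _ hlt F hD'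
        ((X ∪ G.neighborFinset u) ∩ U.erase u) (by
          intro w hw hwU
          rcases mem_union.mp (mem_inter.mp hw).1 with hwX | hwN
          · have e1 := hX w (mem_insert_of_mem hwX) (mem_of_mem_erase hwU)
            have := card_erase_le' (G := G) U u w
            omega
          · have e1 := card_erase_nbr (G := G) hu hwN
            have e2 := hD w (mem_of_mem_erase hwU)
            omega)
      have he : Yp G (U.erase u) (X ∪ G.neighborFinset u) F
          = Yp G (U.erase u) ((X ∪ G.neighborFinset u) ∩ U.erase u) F := by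
        apply Yp_congr
        · intro v hv; simp only [mem_inter, hv, and_true]
        · intro v _; rfl
      have hc : ((X ∪ G.neighborFinset u) ∩ U.erase u).card ≤ X.card + d := by
        rw [union_inter_distrib_right]
        refine (card_union_le _ _).trans ?_
        rw [inter_erase_self]
        have e1 : (X ∩ U.erase u).card ≤ X.card := card_le_card inter_subset_left
        omega
      have hZ' := ihA _ hlt F hD'
      have hBu := hB u hu
      have hb : ∀ i, β * (Yp G (U.erase u) ∅ F).coeff i ≤ (Yp G U ∅ F).coeff i := by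
        intro i
        have e1 := hBu i
        rw [coeff_C_mul] at e1
        have e2 := hZ' i
        rw [coeff_zero] at e2
        refine le_trans (mul_le_mul_of_nonneg_right ?_ e2) e1
        have e3 : (((G.neighborFinset u ∩ U).card + (F u).card : ℕ) : ℝ) ≤ ((d : ℕ) : ℝ) := by
          exact_mod_cast hdu
        push_cast at e3
        linarith
      refine ⟨P + Q', Q + P', ?_, ?_, ?_, ?_, ?_⟩
      · rw [Yp_insert hu huX, he, h1, g1]; ring
      · intro i
        have e1 := h2 i
        have e2 := hZ' i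
        have e3 := g4 i
        rw [coeff_zero] at e1 e2 ⊢
        rw [coeff_add]
        linarith
      · intro i
        have e1 := h3 i
        have e2 := g5 i
        have e3 := hb i
        have e4 := hZ' i
        have e5 := hA i
        rw [coeff_zero] at e4 e5
        rw [coeff_C_mul] at e1 e2
        rw [coeff_add, coeff_C_mul]
        have m1 := mul_le_mul_of_nonneg_right (hN.mono_e hc) e4
        have m2 := hN.step_o X.card
        have m3 := hN.ee_nonneg (X.card + d)
        have m4 : ee a b (X.card + d) * (Yp G (U.erase u) ∅ F).coeff i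
            ≤ ee a b (X.card + d) / β * (Yp G U ∅ F).coeff i := by
          have : (Yp G (U.erase u) ∅ F).coeff i ≤ (Yp G U ∅ F).coeff i / β := by
            rw [le_div_iff₀ hN.hβ]; linarith
          calc ee a b (X.card + d) * (Yp G (U.erase u) ∅ F).coeff i
              ≤ ee a b (X.card + d) * ((Yp G U ∅ F).coeff i / β) :=
                mul_le_mul_of_nonneg_left this m3
            _ = _ := by ring
        have m5 := mul_le_mul_of_nonneg_right m2 e5
        linarith
      · intro i
        have e1 := h4 i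
        have e2 := g2 i
        rw [coeff_zero] at e2
        rw [coeff_add]
        linarith
      · intro i
        have e1 := h5 i
        have e2 := g3 i
        have e3 := hb i
        have e4 := hZ' i
        have e5 := hA i
        rw [coeff_zero] at e4 e5
        rw [coeff_C_mul] at e1 e2
        rw [coeff_add, coeff_C_mul]
        have m1 := mul_le_mul_of_nonneg_right (hN.mono_o hc) e4
        have m2 := hN.step_e X.card
        have m3 := hN.oo_nonneg (X.card + d)
        have m4 : oo a b (X.card + d) * (Yp G (U.erase u) ∅ F).coeff i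
            ≤ oo a b (X.card + d) / β * (Yp G U ∅ F).coeff i := by
          have : (Yp G (U.erase u) ∅ F).coeff i ≤ (Yp G U ∅ F).coeff i / β := by
            rw [le_div_iff₀ hN.hβ]; linarith
          calc oo a b (X.card + d) * (Yp G (U.erase u) ∅ F).coeff i
              ≤ oo a b (X.card + d) * ((Yp G U ∅ F).coeff i / β) :=
                mul_le_mul_of_nonneg_left this m3
            _ = _ := by ring
        have m5 := mul_le_mul_of_nonneg_right m2 e5
        linarith
    · refine ⟨P, Q, ?_, h2, ?_, h4, ?_⟩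
      · rw [← h1]
        apply Yp_congr
        · intro v hv
          have : v ≠ u := by rintro rfl; exact hu hv
          simp [this]
        · intro v _; rfl
      · intro i
        have e1 := h3 i
        have e5 := hA i
        rw [coeff_zero] at e5
        rw [coeff_C_mul] at e1 ⊢
        exact e1.trans (mul_le_mul_of_nonneg_right (hN.mono_o (Nat.le_succ _)) e5)
      · intro i
        have e1 := h5 i
        have e5 := hA i
        rw [coeff_zero] at e5
        rw [coeff_C_mul] at e1 ⊢
        exact e1.trans (mul_le_mul_of_nonneg_right (hN.mono_e (Nat.le_succ _)) e5)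

/-- the main induction -/
lemma main_ind {a b β : ℝ} {d : ℕ} (hN : Num a b β d) (hβ : β ≤ (k : ℝ) - d)
    (hk : d + 1 ≤ k) (n : ℕ) :
    ∀ U : Finset V, U.card = n → ∀ F : V → Finset (Fin k), Dom G d U F →
      Le 0 (Yp G U ∅ F) ∧
      (∀ u ∈ U, Le (C ((k : ℝ) - (F u).card - (G.neighborFinset u ∩ U).card)
        * Yp G (U.erase u) ∅ F) (Yp G U ∅ F)) ∧ ClC G a b d U F := by
  induction n using Nat.strong_induction_on with
  | _ n ih =>
    intro U hU F hD
    have ihA : ∀ U' : Finset V, U'.card < U.card → ∀ F : V → Finset (Fin k), Dom G d U' F →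
        Le 0 (Yp G U' ∅ F) := fun U' hU' F hF => (ih _ (hU ▸ hU') U' rfl F hF).1
    have ihC : ∀ U' : Finset V, U'.card < U.card → ∀ F : V → Finset (Fin k), Dom G d U' F →
        ClC G a b d U' F := fun U' hU' F hF => (ih _ (hU ▸ hU') U' rfl F hF).2.2
    have hB := fun u (hu : u ∈ U) => stepB hN hD hu ihA ihC
    have hA := stepA hk hD ihA hB
    exact ⟨hA, hB, stepC hN hβ hD hA ihA hB ihC⟩

lemma Le.eval {p q : ℝ[X]} (h : Le p q) {θ : ℝ} (hθ : 0 ≤ θ) : p.eval θ ≤ q.eval θ := by
  have h1 : 0 ≤ (q - p).eval θ := by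
    rw [eval_eq_sum_range]
    refine sum_nonneg fun i _ => mul_nonneg ?_ (pow_nonneg hθ i)
    rw [coeff_sub]
    linarith [h i]
  rw [eval_sub] at h1
  linarith

lemma eval_pos {a b β : ℝ} {d : ℕ} (hN : Num a b β d) (hβ : β ≤ (k : ℝ) - d)
    (hk : d + 1 < k) {θ : ℝ} (hθ : 0 ≤ θ) (n : ℕ) :
    ∀ U : Finset V, U.card = n → ∀ F : V → Finset (Fin k), Dom G d U F →
      0 < (Yp G U ∅ F).eval θ := by
  induction n with
  | zero =>
    intro U hU F _
    rw [card_eq_zero] at hU
    subst hU
    rw [Yp_empty]
    simp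
  | succ n ih =>
    intro U hU F hD
    obtain ⟨u, hu⟩ : U.Nonempty := by rw [← card_pos]; omega
    have h1 := ih (U.erase u) (by rw [card_erase_of_mem hu]; omega) F (hD.erase u)
    have h2 := ((main_ind hN hβ hk.le (n + 1) U hU F hD).2.1 u hu).eval hθ
    rw [eval_mul, eval_C] at h2
    refine lt_of_lt_of_le (mul_pos ?_ h1) h2
    have h3 := hD u hu
    have h4 : (((G.neighborFinset u ∩ U).card + (F u).card : ℕ) : ℝ) < ((k : ℕ) : ℝ) := by
      exact_mod_cast lt_of_le_of_lt h3 hk
    push_cast at h4
    linarith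

end Main

end Pool.Agent.Lib.MP_601de6_co
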