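import Pool.Agent.Lib.MP_601de6_co.Count

namespace Pool.Agent.Lib.MP_601de6_co

open Finset Polynomial

section Poly

variable {V : Type*} [DecidableEq V] [Fintype V] (G : SimpleGraph V) [DecidableRel G.Adj]
variable {k : ℕ}

/-- The lists: a vertex `v` may use the `k` special colours outside `F v` and the `m` generic
colours, except that the generic colour `0` is forbidden on `X`. -/
def LA (m : ℕ) (F : V → Finset (Fin k)) (X : Finset V) : V → Finset (Fin k ⊕ Fin m) :=
  fun v => (univ \ F v).disjSum (univ.filter (fun j : Fin m => v ∈ X → (j : ℕ) ≠ 0))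

/-- forbid the special colour `a` on `X` -/
def addF (F : V → Finset (Fin k)) (a : Fin k) (X : Finset V) : V → Finset (Fin k) :=
  fun v => if v ∈ X then insert a (F v) else F v

variable {G}

lemma rem_inl (m : ℕ) (F : V → Finset (Fin k)) (X Y : Finset V) (a : Fin k) :
    rem (LA m F X) (Sum.inl a) Y = LA m (addF F a Y) X := by
  funext v
  unfold rem LA addF
  by_cases hv : v ∈ Y
  · simp only [if_pos hv]
    ext c
    rcases c with c | c
    · simp only [mem_erase, inl_mem_disjSum, mem_sdiff, mem_univ, true_and, mem_insert, not_or,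
        ne_eq, Sum.inl.injEq]
    · simp only [mem_erase, inr_mem_disjSum, mem_filter, mem_univ, true_and, ne_eq, reduceCtorEq,
        not_false_eq_true]
  · simp only [if_neg hv]

lemma rem_inr (m : ℕ) (hm : 0 < m) (F : V → Finset (Fin k)) (X Y : Finset V) :
    rem (LA m F X) (Sum.inr ⟨0, hm⟩) Y = LA m F (X ∪ Y) := by
  funext v
  unfold rem LA
  by_cases hv : v ∈ Y
  · simp only [if_pos hv]
    ext c
    rcases c with c | c
    · simp only [mem_erase, inl_mem_disjSum, mem_sdiff, mem_univ, true_and, ne_eq, reduceCtorEq,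
        not_false_eq_true]
    · simp only [mem_erase, inr_mem_disjSum, mem_filter, mem_univ, true_and, ne_eq,
        Sum.inr.injEq, mem_union, hv, or_true, forall_const, Fin.ext_iff]
      tauto
  · have h1 : (v ∈ X ∪ Y) = (v ∈ X) := by simp [hv]
    simp only [if_neg hv, h1]

lemma image_LA (m : ℕ) (hm : 0 < m) (F : V → Finset (Fin k)) (j : Fin m) (v : V) :
    (LA m F ∅ v).image (Equiv.sumCongr (Equiv.refl (Fin k)) (Equiv.swap j ⟨0, hm⟩))
      = LA m F ∅ v := by
  unfold LA
  ext c
  rcases c with c | c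
  · simp only [notMem_empty, false_imp_iff, filter_true, mem_image, Sum.exists,
      inl_mem_disjSum, mem_sdiff, mem_univ, true_and, inr_mem_disjSum,
      Equiv.sumCongr_apply, Sum.map_inl, Sum.map_inr, Equiv.refl_apply, Sum.inl.injEq,
      exists_eq_right, reduceCtorEq, exists_const, or_false, IsEmpty.forall_iff, exists_false,
      Equiv.coe_refl, id_eq]
  · simp only [notMem_empty, false_imp_iff, filter_true, mem_image, Sum.exists,
      inl_mem_disjSum, mem_sdiff, mem_univ, true_and, inr_mem_disjSum,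
      Equiv.sumCongr_apply, Sum.map_inl, Sum.map_inr, Sum.inr.injEq, reduceCtorEq, and_false,
      exists_false, false_or, iff_true]
    exact ⟨Equiv.swap j ⟨0, hm⟩ c, by simp⟩

/-- counts -/
noncomputable def cY (G : SimpleGraph V) (m : ℕ) (U X : Finset V) (F : V → Finset (Fin k)) : ℕ :=
  cnt G U (LA m F X)

lemma cY_congr {m : ℕ} {U X X' : Finset V} {F F' : V → Finset (Fin k)}
    (h : ∀ v ∈ U, (v ∈ X ↔ v ∈ X')) (h' : ∀ v ∈ U, F v = F' v) :
    cY G m U X F = cY G m U X' F' := by
  unfold cY
  apply cnt_congr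
  intro v hv
  unfold LA
  simp only [h' v hv, h v hv]

lemma cY_empty {m : ℕ} {X : Finset V} {F : V → Finset (Fin k)} :
    cY G m ∅ X F = 1 := cnt_empty _

lemma cY_split_gen {m : ℕ} (hm : 0 < m) {U X : Finset V} {F : V → Finset (Fin k)} {u : V}
    (hu : u ∈ U) (hX : u ∉ X) :
    cY G m U X F = cY G m U (insert u X) F + cY G m (U.erase u) (X ∪ G.neighborFinset u) F := by
  unfold cY
  have hc : (Sum.inr ⟨0, hm⟩ : Fin k ⊕ Fin m) ∈ LA m F X u := by
    unfold LA
    simp [hX]
  rw [cnt_split _ hu hc, rem_inr, rem_inr]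
  congr 2
  rw [union_comm]
  rfl

lemma cY_split_spec {m : ℕ} {U X : Finset V} {F : V → Finset (Fin k)} {u : V}
    (hu : u ∈ U) {a : Fin k} (ha : a ∉ F u) :
    cY G m U X F = cY G m U X (addF F a {u})
      + cY G m (U.erase u) X (addF F a (G.neighborFinset u)) := by
  unfold cY
  have hc : (Sum.inl a : Fin k ⊕ Fin m) ∈ LA m F X u := by
    unfold LA
    simp [ha]
  rw [cnt_split _ hu hc, rem_inl, rem_inl]

lemma cY_rec {m : ℕ} {U : Finset V} {F : V → Finset (Fin k)} {u : V} (hu : u ∈ U) :
    cY G m U ∅ F = ∑ a ∈ univ \ F u, cY G m (U.erase u) ∅ (addF F a (G.neighborFinset u))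
      + m * cY G m (U.erase u) (G.neighborFinset u) F := by
  unfold cY
  rw [cnt_rec _ hu]
  have hLA : LA m F ∅ u = (univ \ F u).disjSum univ := by
    unfold LA; simp
  rw [hLA, sum_disjSum]
  refine congr_arg₂ (· + ·) ?_ ?_
  · refine sum_congr rfl fun a _ => ?_
    rw [rem_inl]
  · have key : ∀ j ∈ (univ : Finset (Fin m)),
        cnt G (U.erase u) (rem (LA m F ∅) (Sum.inr j) (G.neighborFinset u))
          = cnt G (U.erase u) (LA m F (G.neighborFinset u)) := by
      intro j _
      have hm : 0 < m := lt_of_le_of_lt (Nat.zero_le _) j.2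
      have h1 := rem_inr m hm F ∅ (G.neighborFinset u)
      rw [empty_union] at h1
      rw [← h1, ← cnt_perm (rem (LA m F ∅) (Sum.inr j) (G.neighborFinset u))
        (Equiv.sumCongr (Equiv.refl (Fin k)) (Equiv.swap j ⟨0, hm⟩))]
      apply cnt_congr
      intro v _
      unfold rem
      by_cases hv : v ∈ G.neighborFinset u
      · simp only [if_pos hv]
        rw [image_erase (Equiv.injective _), image_LA]
        simp
      · simp only [if_neg hv]
        rw [image_LA]
    rw [sum_congr rfl key, sum_const, card_univ, Fintype.card_fin, smul_eq_mul]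

/-- the counting functions are polynomials -/
lemma exists_poly (n : ℕ) : ∀ U : Finset V, U.card = n → ∀ F : V → Finset (Fin k),
    (∃ p : ℝ[X], ∀ m : ℕ, p.eval (m : ℝ) = (cY G m U ∅ F : ℝ)) ∧
    ∀ X : Finset V, ∃ p : ℝ[X], ∀ m : ℕ, 0 < m → p.eval (m : ℝ) = (cY G m U X F : ℝ) := by
  induction n using Nat.strong_induction_on with
  | _ n ih =>
    intro U hU F
    have hZ : ∃ p : ℝ[X], ∀ m : ℕ, p.eval (m : ℝ) = (cY G m U ∅ F : ℝ) := by
      rcases U.eq_empty_or_nonempty with rfl | ⟨u, hu⟩
      · exact ⟨1, fun m => by simp [cY_empty]⟩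
      · have hlt : (U.erase u).card < n := by
          rw [← hU]; exact card_erase_lt_of_mem hu
        have h1 := fun F' => (ih _ hlt (U.erase u) rfl F').1
        have h2 := fun F' => (ih _ hlt (U.erase u) rfl F').2
        choose p hp using h1
        choose p' hp' using h2
        refine ⟨∑ a ∈ univ \ F u, p (addF F a (G.neighborFinset u))
          + X * p' F (G.neighborFinset u), fun m => ?_⟩
        rw [cY_rec hu]
        rw [eval_add, eval_finsetSum, eval_mul, eval_X]
        push_cast
        rcases Nat.eq_zero_or_pos m with rfl | hm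
        · have : ((0 : ℕ) : ℝ) = 0 := Nat.cast_zero
          simp only [Nat.cast_zero, zero_mul, add_zero]
          refine sum_congr rfl fun a _ => ?_
          have := hp (addF F a (G.neighborFinset u)) 0
          simpa using this
        · rw [hp' F (G.neighborFinset u) m hm]
          congr 1
          refine sum_congr rfl fun a _ => hp _ m
    refine ⟨hZ, ?_⟩
    intro X
    induction X using Finset.induction_on with
    | empty =>
      obtain ⟨p, hp⟩ := hZ
      exact ⟨p, fun m _ => hp m⟩
    | insert u X hX ihX =>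
      obtain ⟨p, hp⟩ := ihX
      by_cases hu : u ∈ U
      · have hlt : (U.erase u).card < n := by
          rw [← hU]; exact card_erase_lt_of_mem hu
        obtain ⟨p', hp'⟩ := (ih _ hlt (U.erase u) rfl F).2 (X ∪ G.neighborFinset u)
        refine ⟨p - p', fun m hm => ?_⟩
        have := cY_split_gen (G := G) (F := F) hm hu hX
        rw [eval_sub, hp m hm, hp' m hm, this]
        push_cast
        ring
      · refine ⟨p, fun m hm => ?_⟩
        rw [hp m hm]
        congr 1
        apply cY_congr
        · intro v hv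
          have : v ≠ u := by rintro rfl; exact hu hv
          simp [this]
        · intro v _; rfl

/-- the polynomial counting colourings -/
noncomputable def Yp (G : SimpleGraph V) [DecidableRel G.Adj] (U X : Finset V)
    (F : V → Finset (Fin k)) : ℝ[X] :=
  ((exists_poly (G := G) U.card U rfl F).2 X).choose

lemma Yp_eval {U X : Finset V} {F : V → Finset (Fin k)} {m : ℕ} (hm : 0 < m) :
    (Yp G U X F).eval (m : ℝ) = (cY G m U X F : ℝ) :=
  ((exists_poly (G := G) U.card U rfl F).2 X).choose_spec m hm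

lemma poly_ext {p q : ℝ[X]} (h : ∀ m : ℕ, 0 < m → p.eval (m : ℝ) = q.eval (m : ℝ)) : p = q := by
  apply Polynomial.eq_of_infinite_eval_eq
  apply Set.Infinite.mono (s := (fun m : ℕ => (m : ℝ)) '' {m | 0 < m})
  · rintro _ ⟨m, hm, rfl⟩
    exact h m hm
  · apply Set.Infinite.image
    · intro a _ b _ hab
      exact Nat.cast_injective hab
    · exact Set.infinite_of_not_bddAbove (by
        rintro ⟨b, hb⟩
        have := hb (show (b + 1) ∈ {m : ℕ | 0 < m} from Nat.succ_pos b)
        omega)

lemma Zp_eval {U : Finset V} {F : V → Finset (Fin k)} (m : ℕ) :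
    (Yp G U ∅ F).eval (m : ℝ) = (cY G m U ∅ F : ℝ) := by
  obtain ⟨p, hp⟩ := (exists_poly (G := G) U.card U rfl F).1
  have : Yp G U ∅ F = p := poly_ext fun m hm => by rw [Yp_eval hm, hp]
  rw [this, hp]

lemma Yp_congr {U X X' : Finset V} {F F' : V → Finset (Fin k)}
    (h : ∀ v ∈ U, (v ∈ X ↔ v ∈ X')) (h' : ∀ v ∈ U, F v = F' v) :
    Yp G U X F = Yp G U X' F' :=
  poly_ext fun m hm => by rw [Yp_eval hm, Yp_eval hm, cY_congr h h']

lemma Yp_empty {X : Finset V} {F : V → Finset (Fin k)} : Yp G ∅ X F = 1 :=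
  poly_ext fun m hm => by rw [Yp_eval hm, cY_empty]; simp

lemma Yp_insert {U X : Finset V} {F : V → Finset (Fin k)} {u : V}
    (hu : u ∈ U) (hX : u ∉ X) :
    Yp G U (insert u X) F = Yp G U X F - Yp G (U.erase u) (X ∪ G.neighborFinset u) F := by
  apply poly_ext
  intro m hm
  have := cY_split_gen (G := G) (F := F) hm hu hX
  rw [eval_sub, Yp_eval hm, Yp_eval hm, Yp_eval hm, this]
  push_cast
  ring

lemma Yp_split {U X : Finset V} {F : V → Finset (Fin k)} {u : V}
    (hu : u ∈ U) {a : Fin k} (ha : a ∉ F u) :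
    Yp G U X F = Yp G U X (addF F a {u})
      + Yp G (U.erase u) X (addF F a (G.neighborFinset u)) := by
  apply poly_ext
  intro m hm
  rw [eval_add, Yp_eval hm, Yp_eval hm, Yp_eval hm, cY_split_spec hu ha]
  push_cast
  ring

lemma Yp_rec {U : Finset V} {F : V → Finset (Fin k)} {u : V} (hu : u ∈ U) :
    Yp G U ∅ F = ∑ a ∈ univ \ F u, Yp G (U.erase u) ∅ (addF F a (G.neighborFinset u))
      + X * Yp G (U.erase u) (G.neighborFinset u) F := by
  apply poly_ext
  intro m hm
  rw [eval_add, eval_finsetSum, eval_mul, eval_X, Yp_eval hm, cY_rec hu, Yp_eval hm]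
  push_cast
  congr 1
  exact sum_congr rfl fun a _ => (Yp_eval hm).symm

end Poly

end Pool.Agent.Lib.MP_601de6_co
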