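import Pool.Agent.Lib.MP_601de6_co.Final

/-!
# MP_601de6_co: real chromatic roots are less than `(1 + e) Δ₂`

If all vertices of the finite simple graph `G`, except possibly one vertex `x`, have degree at
most `D ≥ 1`, then the chromatic polynomial of `G` is positive at every real
`q ≥ (1 + e) D`.
-/

namespace Pool.Agent.Results.MP_601de6_co.RootsBelowOnePlusE

open Pool.Agent.Lib.MP_601de6_co Polynomial

/-- There is a real polynomial whose value at every natural number `n` is the number of proper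
colourings of `G` with `n` colours, and it is positive at all real `q ≥ (1 + e) D`. -/
theorem result {V : Type*} [Fintype V] (G : SimpleGraph V) [DecidableRel G.Adj]
    (x : V) (D : ℕ) (hD : 1 ≤ D) (hdeg : ∀ v, v ≠ x → G.degree v ≤ D) :
    ∃ P : ℝ[X], (∀ n : ℕ, P.eval (n : ℝ) = Nat.card (G.Coloring (Fin n))) ∧
      ∀ q : ℝ, (1 + Real.exp 1) * D ≤ q → 0 < P.eval q := by
  classical
  obtain ⟨P, hP⟩ := exists_chromatic (G := G)
  refine ⟨P, hP, fun q hq => ?_⟩
  obtain ⟨d, rfl⟩ : ∃ d, D = d + 1 := ⟨D - 1, by omega⟩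
  have he := Real.exp_one_gt_d9
  have hd0 : (0 : ℝ) ≤ d := Nat.cast_nonneg d
  push_cast at hq
  have hq0 : 0 ≤ q := by
    refine le_trans ?_ hq
    positivity
  have h1 : (⌊q⌋₊ : ℝ) ≤ q := Nat.floor_le hq0
  have h2 : q < (⌊q⌋₊ : ℝ) + 1 := Nat.lt_floor_add_one q
  have h3 : Real.exp 1 * ((d : ℝ) + 1) ≤ (⌊q⌋₊ : ℝ) - d := by nlinarith
  obtain ⟨a, b, hN⟩ := exists_num h3
  refine chromatic_pos (G := G) (d := d) (x := x) ?_ P (fun n _ => hP n) hN le_rfl ?_ h1
  · intro v hv
    convert hdeg v hv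
  · have h4 : ((d : ℝ) + 1) < (⌊q⌋₊ : ℝ) := by nlinarith
    exact_mod_cast h4

end Pool.Agent.Results.MP_601de6_co.RootsBelowOnePlusE
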